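import Mathlib

/-!
# Residue classes of primes modulo which given integers are quadratic non-residues

If no product of an odd number of distinct elements of `G ∪ {-3}` is a square, then there is a residue
class `a mod Q` such that all `n ∈ G` are quadratic non-residues modulo all primes `p ≡ a mod Q`, and
`a` and `a - 1` are coprime to the odd part of `Q`.
-/

set_option autoImplicit false

namespace Pool.Agent.U163.SA

open Finset

/-- the sign and the valuations modulo `2` -/
noncomputable def wv (P : Finset ℕ) (n : ℤ) : Option P → ZMod 2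
  | none => if n < 0 then 1 else 0
  | some q => ((n.natAbs.factorization q.1 : ℕ) : ZMod 2)

theorem wv_mul (P : Finset ℕ) {n m : ℤ} (hn : n ≠ 0) (hm : m ≠ 0) :
    wv P (n * m) = wv P n + wv P m := by
  funext i
  rw [Pi.add_apply]
  match i with
  | none =>
    show (if n * m < 0 then (1 : ZMod 2) else 0) = (if n < 0 then 1 else 0) + (if m < 0 then 1 else 0)
    rcases lt_or_gt_of_ne hn with h1 | h1 <;> rcases lt_or_gt_of_ne hm with h2 | h2
    · rw [if_pos h1, if_pos h2, if_neg (not_lt.2 (mul_pos_of_neg_of_neg h1 h2).le)]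
      decide
    · rw [if_pos h1, if_neg (not_lt.2 h2.le), if_pos (mul_neg_of_neg_of_pos h1 h2)]
      decide
    · rw [if_pos (mul_neg_of_pos_of_neg h1 h2), if_neg (not_lt.2 h1.le), if_pos h2]
      decide
    · rw [if_neg (not_lt.2 (mul_pos h1 h2).le), if_neg (not_lt.2 h1.le), if_neg (not_lt.2 h2.le)]
      decide
  | some q =>
    show (((n * m).natAbs.factorization q.1 : ℕ) : ZMod 2) =
      ((n.natAbs.factorization q.1 : ℕ) : ZMod 2) + ((m.natAbs.factorization q.1 : ℕ) : ZMod 2)
    rw [Int.natAbs_mul, Nat.factorization_mul (Int.natAbs_ne_zero.2 hn) (Int.natAbs_ne_zero.2 hm),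
      Finsupp.add_apply]
    push_cast
    ring

theorem wv_one (P : Finset ℕ) : wv P 1 = 0 := by
  funext i
  match i with
  | none =>
    show (if (1 : ℤ) < 0 then (1 : ZMod 2) else 0) = 0
    rw [if_neg (by norm_num)]
  | some q =>
    show (((1 : ℤ).natAbs.factorization q.1 : ℕ) : ZMod 2) = 0
    simp

theorem wv_prod (P : Finset ℕ) (S : Finset ℤ) (h : ∀ n ∈ S, n ≠ 0) :
    wv P (∏ n ∈ S, n) = ∑ n ∈ S, wv P n := by
  classical
  induction S using Finset.induction_on with
  | empty => simp [wv_one]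
  | insert a s ha ih =>
    rw [prod_insert ha, sum_insert ha, wv_mul P (h a (mem_insert_self _ _)), ih]
    · intro n hn
      exact h n (mem_insert_of_mem hn)
    · rw [prod_ne_zero_iff]
      intro n hn
      exact h n (mem_insert_of_mem hn)

theorem wv_sq (P : Finset ℕ) (n : ℤ) (hn : n ≠ 0) (hP : ∀ q : ℕ, q.Prime → (q : ℤ) ∣ n → q ∈ P)
    (hw : wv P n = 0) : IsSquare n := by
  have h1 : ¬ n < 0 := by
    intro h
    have h2 := congrFun hw none
    have h3 : (if n < 0 then (1 : ZMod 2) else 0) = 0 := h2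
    rw [if_pos h] at h3
    exact absurd h3 (by decide)
  obtain ⟨k, rfl⟩ := Int.eq_ofNat_of_zero_le (not_lt.1 h1)
  have hk0 : k ≠ 0 := by
    intro h
    apply hn
    rw [h]
    rfl
  obtain ⟨a, b, hab, ha⟩ := Nat.sq_mul_squarefree k
  have ha1 : a = 1 := by
    by_contra hne
    obtain ⟨q, hq, hqa⟩ := Nat.exists_prime_and_dvd hne
    have hqk : q ∣ k := by
      rw [← hab]
      exact hqa.mul_left _
    have hqP := hP q hq (by exact_mod_cast hqk)
    have h2 := congrFun hw (some ⟨q, hqP⟩)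
    have h3 : ((k.factorization q : ℕ) : ZMod 2) = 0 := h2
    rw [ZMod.natCast_eq_zero_iff] at h3
    have hb0 : b ≠ 0 := by
      rintro rfl
      apply hk0
      rw [← hab]
      simp
    have ha0 : a ≠ 0 := ha.ne_zero
    rw [← hab, Nat.factorization_mul (pow_ne_zero 2 hb0) ha0, Nat.factorization_pow,
      Finsupp.add_apply, Finsupp.smul_apply, smul_eq_mul] at h3
    have h4 : a.factorization q = 1 := by
      have h5 := ha.natFactorization_le_one q
      have h6 : 1 ≤ a.factorization q := (hq.dvd_iff_one_le_factorization ha0).1 hqa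
      omega
    omega
  refine ⟨(b : ℤ), ?_⟩
  rw [← hab, ha1]
  push_cast
  ring

/-- the functional -/
theorem exists_f (P : Finset ℕ) (G : Finset ℤ) (h0 : ∀ n ∈ G, n ≠ 0)
    (hP : ∀ n ∈ G, ∀ q : ℕ, q.Prime → (q : ℤ) ∣ n → q ∈ P)
    (hsq : ∀ S ⊆ G, IsSquare (∏ n ∈ S, n) → Even S.card) :
    ∃ f : (Option P → ZMod 2) →ₗ[ZMod 2] ZMod 2, ∀ n ∈ G, f (wv P n) = 1 := by
  classical
  obtain ⟨φ, hφ⟩ : ∃ φ : (G → ZMod 2) →ₗ[ZMod 2] (Option P → ZMod 2),
      φ = Fintype.linearCombination (ZMod 2) (fun i : G => wv P i.1) := ⟨_, rfl⟩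
  obtain ⟨σ, hσ⟩ : ∃ σ : (G → ZMod 2) →ₗ[ZMod 2] ZMod 2,
      σ = Fintype.linearCombination (ZMod 2) (fun _ : G => (1 : ZMod 2)) := ⟨_, rfl⟩
  have hσk : σ ∈ (LinearMap.ker φ).dualAnnihilator := by
    rw [Submodule.mem_dualAnnihilator]
    intro c hc
    rw [LinearMap.mem_ker, hφ, Fintype.linearCombination_apply] at hc
    obtain ⟨S, hS⟩ : ∃ S : Finset G, S = univ.filter (fun i => c i = 1) := ⟨_, rfl⟩
    have hc01 : ∀ i, c i ≠ 1 → c i = 0 := by
      intro i
      have : ∀ s : ZMod 2, s ≠ 1 → s = 0 := by decide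
      exact this (c i)
    have h1 : ∑ i ∈ S, wv P i.1 = 0 := by
      rw [← hc, hS, sum_filter]
      refine sum_congr rfl fun i _ => ?_
      by_cases h : c i = 1
      · rw [if_pos h, h, one_smul]
      · rw [if_neg h, hc01 i h, zero_smul]
    obtain ⟨S', hS'⟩ : ∃ S' : Finset ℤ, S' = S.map (Function.Embedding.subtype _) := ⟨_, rfl⟩
    have hS'G : S' ⊆ G := by
      intro n hn
      rw [hS', mem_map] at hn
      obtain ⟨i, _, rfl⟩ := hn
      exact i.2
    have h2 : wv P (∏ n ∈ S', n) = 0 := by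
      rw [wv_prod P S' (fun n hn => h0 n (hS'G hn)), hS', sum_map, ← h1]
      rfl
    have h3 : IsSquare (∏ n ∈ S', n) := by
      apply wv_sq P _ _ _ h2
      · rw [prod_ne_zero_iff]
        exact fun n hn => h0 n (hS'G hn)
      · intro q hq hqd
        obtain ⟨n, hn, hqn⟩ := ((Nat.prime_iff_prime_int.1 hq).dvd_finsetProd_iff _).1 hqd
        exact hP n (hS'G hn) q hq hqn
    have h4 := hsq S' hS'G h3
    rw [hS', card_map] at h4
    rw [hσ, Fintype.linearCombination_apply]
    have h5 : ∑ i, c i • (1 : ZMod 2) = ((S.card : ℕ) : ZMod 2) := by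
      rw [card_eq_sum_ones, hS, sum_filter]
      push_cast
      refine sum_congr rfl fun i _ => ?_
      by_cases h : c i = 1
      · rw [if_pos h, h, one_smul]
      · rw [if_neg h, hc01 i h, zero_smul]
    rw [h5, ZMod.natCast_eq_zero_iff]
    exact h4.two_dvd
  rw [← LinearMap.range_dualMap_eq_dualAnnihilator_ker] at hσk
  obtain ⟨f, hf⟩ := hσk
  refine ⟨f, fun n hn => ?_⟩
  have h1 := LinearMap.congr_fun hf (Pi.single ⟨n, hn⟩ 1)
  rw [LinearMap.dualMap_apply, hφ, hσ, Fintype.linearCombination_apply_single,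
    Fintype.linearCombination_apply_single, one_smul, one_smul] at h1
  exact h1

/-- the sign of a residue class mod `2` -/
def eps (s : ZMod 2) : ℤ := if s = 0 then 1 else -1

theorem eps_add (s t : ZMod 2) : eps (s + t) = eps s * eps t := by
  revert s t
  decide

theorem eps_pm (s : ZMod 2) : eps s = 1 ∨ eps s = -1 := by
  revert s
  decide

/-- the class modulo `8` -/
theorem class8 (s t : ZMod 2) : ∃ a : ℕ, a < 8 ∧ a % 2 = 1 ∧ (-1 : ℤ) ^ (a / 2) = eps s ∧
    ∀ p : ℕ, p.Prime → p % 8 = a → ∀ [Fact p.Prime], legendreSym p (-1) = eps s ∧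
      legendreSym p 2 = eps t := by
  have key : ∀ a : ℕ, a < 8 → a % 2 = 1 → (-1 : ℤ) ^ (a / 2) = eps s →
      (if a = 1 ∨ a = 7 then (1 : ℤ) else -1) = eps t →
      ∃ a : ℕ, a < 8 ∧ a % 2 = 1 ∧ (-1 : ℤ) ^ (a / 2) = eps s ∧
        ∀ p : ℕ, p.Prime → p % 8 = a → ∀ [Fact p.Prime], legendreSym p (-1) = eps s ∧
          legendreSym p 2 = eps t := by
    intro a h1 h2 h3 h4
    refine ⟨a, h1, h2, h3, fun p hp hpa => ?_⟩
    intro _
    have hp2 : p ≠ 2 := by
      rintro rfl
      omega
    constructor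
    · rw [legendreSym.at_neg_one hp2, ← h3, ZMod.χ₄_nat_eq_if_mod_four, if_neg (by omega)]
      have : a = 1 ∨ a = 3 ∨ a = 5 ∨ a = 7 := by omega
      rcases this with rfl | rfl | rfl | rfl
      · rw [if_pos (by omega)]; norm_num
      · rw [if_neg (by omega)]; norm_num
      · rw [if_pos (by omega)]; norm_num
      · rw [if_neg (by omega)]; norm_num
    · rw [legendreSym.at_two hp2, ← h4, ZMod.χ₈_nat_eq_if_mod_eight, if_neg (by omega), hpa]
  rcases eps_pm s with hs | hs <;> rcases eps_pm t with ht | ht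
  · exact key 1 (by norm_num) (by norm_num) (by rw [hs]; norm_num) (by rw [ht]; norm_num)
  · exact key 5 (by norm_num) (by norm_num) (by rw [hs]; norm_num) (by rw [ht]; norm_num)
  · exact key 7 (by norm_num) (by norm_num) (by rw [hs]; norm_num) (by rw [ht]; norm_num)
  · exact key 3 (by norm_num) (by norm_num) (by rw [hs]; norm_num) (by rw [ht]; norm_num)

/-- the class modulo an odd prime -/
theorem classq (q : ℕ) (hq : q.Prime) (hq2 : q ≠ 2) [Fact q.Prime] (s : ℤ) (hs : s = 1 ∨ s = -1)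
    (h3 : q = 3 → s = -1) :
    ∃ r : ℕ, legendreSym q r = s ∧ ¬ q ∣ r ∧ ¬ (q : ℤ) ∣ (r : ℤ) - 1 := by
  rcases hs with rfl | rfl
  · have hq3 : q ≠ 3 := fun h => absurd (h3 h) (by norm_num)
    have h2 : ¬ (q : ℤ) ∣ 2 := by
      intro h
      have h4 : q ∣ 2 := by exact_mod_cast h
      exact hq2 ((Nat.prime_dvd_prime_iff_eq hq Nat.prime_two).1 h4)
    refine ⟨4, ?_, ?_, ?_⟩
    · have h5 := legendreSym.sq_one' q (a := 2) (by
        intro h
        exact h2 ((ZMod.intCast_zmod_eq_zero_iff_dvd _ _).1 h))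
      norm_num at h5 ⊢
      exact h5
    · intro h
      have h4 : q ∣ 2 ^ 2 := by norm_num; exact h
      exact hq2 ((Nat.prime_dvd_prime_iff_eq hq Nat.prime_two).1 (hq.dvd_of_dvd_pow h4))
    · intro h
      have h4 : ((4 : ℕ) : ℤ) - 1 = ((3 : ℕ) : ℤ) := by norm_num
      rw [h4] at h
      have h5 : q ∣ 3 := by exact_mod_cast h
      exact hq3 ((Nat.prime_dvd_prime_iff_eq hq Nat.prime_three).1 h5)
  · obtain ⟨a, ha⟩ := FiniteField.exists_nonsquare (F := ZMod q) (by
      rw [ZMod.ringChar_zmod_n]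
      exact hq2)
    have hal : legendreSym q ((a.val : ℕ) : ℤ) = -1 := by
      rw [legendreSym.eq_neg_one_iff]
      push_cast
      rw [ZMod.natCast_zmod_val]
      exact ha
    refine ⟨a.val, hal, fun h => ?_, fun h => ?_⟩
    · have h1 : legendreSym q ((a.val : ℕ) : ℤ) = 0 := by
        rw [legendreSym.eq_zero_iff]
        have h2 := (ZMod.natCast_eq_zero_iff a.val q).2 h
        exact_mod_cast h2
      rw [h1] at hal
      norm_num at hal
    · have h1 : legendreSym q ((a.val : ℕ) : ℤ) = legendreSym q 1 := by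
        rw [legendreSym.mod, legendreSym.mod q 1]
        congr 1
        exact (Int.modEq_iff_dvd.2 h).symm
      rw [h1, legendreSym.at_one] at hal
      norm_num at hal

/-- **the residue class** -/
theorem exists_class (G : Finset ℤ) (h0 : ∀ n ∈ G, n ≠ 0)
    (hOP : ∀ S ⊆ G, ¬ IsSquare ((-3 : ℤ) ^ (S.card + 1) * ∏ n ∈ S, n)) :
    ∃ Q a : ℕ, 0 < Q ∧ 4 ∣ Q ∧ ¬ 2 ∣ a ∧
      (∀ p : ℕ, p.Prime → p ∣ Q → p ≠ 2 → ¬ p ∣ a ∧ ¬ (p : ℤ) ∣ (a : ℤ) - 1) ∧
      ∀ p : ℕ, p.Prime → p ≡ a [MOD Q] → ∀ [Fact p.Prime], ∀ n ∈ G, legendreSym p n = -1 := by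
  classical
  obtain ⟨P, hP⟩ : ∃ P : Finset ℕ,
    P = insert 2 (insert 3 (G.biUnion (fun n => n.natAbs.primeFactors))) := ⟨_, rfl⟩
  have hPp : ∀ q ∈ P, q.Prime := by
    intro q hq
    rw [hP, mem_insert, mem_insert, mem_biUnion] at hq
    rcases hq with rfl | rfl | ⟨n, _, h⟩
    · exact Nat.prime_two
    · exact Nat.prime_three
    · exact Nat.prime_of_mem_primeFactors h
  have h2P : 2 ∈ P := by rw [hP]; exact mem_insert_self _ _
  have h3P : 3 ∈ P := by rw [hP]; exact mem_insert_of_mem (mem_insert_self _ _)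
  have hPG : ∀ n ∈ G, ∀ q : ℕ, q.Prime → (q : ℤ) ∣ n → q ∈ P := by
    intro n hn q hq hqn
    rw [hP]
    refine mem_insert_of_mem (mem_insert_of_mem (mem_biUnion.2 ⟨n, hn, ?_⟩))
    rw [Nat.mem_primeFactors]
    exact ⟨hq, Int.natCast_dvd.1 hqn, Int.natAbs_ne_zero.2 (h0 n hn)⟩
  obtain ⟨f, hf⟩ := exists_f P (insert (-3) G) (by
      intro n hn
      rw [mem_insert] at hn
      rcases hn with rfl | hn
      · norm_num
      · exact h0 n hn) (by
      intro n hn q hq hqn
      rw [mem_insert] at hn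
      rcases hn with rfl | hn
      · have h1 : q ∣ 3 := Int.natCast_dvd.1 hqn
        rw [(Nat.prime_dvd_prime_iff_eq hq Nat.prime_three).1 h1]
        exact h3P
      · exact hPG n hn q hq hqn) (by
      intro S hS hsq
      by_contra hodd
      rw [Nat.not_even_iff_odd] at hodd
      by_cases h3 : (-3 : ℤ) ∈ S
      · have hS' : S.erase (-3) ⊆ G := by
          intro n hn
          rw [mem_erase] at hn
          have := hS hn.2
          rw [mem_insert] at this
          exact this.resolve_left hn.1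
        apply hOP (S.erase (-3)) hS'
        rw [card_erase_of_mem h3]
        have hc : 1 ≤ S.card := card_pos.2 ⟨_, h3⟩
        have e : S.card - 1 + 1 = S.card := by omega
        rw [e]
        obtain ⟨t, ht⟩ := hodd
        rw [ht, pow_succ, mul_assoc, mul_prod_erase S (fun n => n) h3]
        exact ((even_two_mul t).isSquare_pow _).mul hsq
      · apply hOP S (fun n hn => (mem_insert.1 (hS hn)).resolve_left (fun h => h3 (h ▸ hn)))
        obtain ⟨t, ht⟩ := hodd
        have he : Even (S.card + 1) := ⟨t + 1, by omega⟩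
        exact (he.isSquare_pow _).mul hsq)
  obtain ⟨t, ht⟩ : ∃ t : ℤ → ZMod 2, t = fun n => f (wv P n) := ⟨_, rfl⟩
  have ht1 : t 1 = 0 := by
    rw [ht]
    show f (wv P 1) = 0
    rw [wv_one, map_zero]
  have htm : ∀ n m : ℤ, n ≠ 0 → m ≠ 0 → t (n * m) = t n + t m := by
    intro n m hn hm
    rw [ht]
    show f (wv P (n * m)) = f (wv P n) + f (wv P m)
    rw [wv_mul P hn hm, map_add]
  have ht3 : t (-3) = 1 := by
    rw [ht]
    exact hf (-3) (mem_insert_self _ _)
  have htG : ∀ n ∈ G, t n = 1 := by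
    intro n hn
    rw [ht]
    exact hf n (mem_insert_of_mem hn)
  obtain ⟨a₈, ha8, ha2, hapow, hap⟩ := class8 (t (-1)) (t 2)
  have hr : ∀ q : ℕ, ∃ r : ℕ, q ∈ P → q ≠ 2 → (∀ [Fact q.Prime],
      legendreSym q r = eps (t q) * (-1) ^ (a₈ / 2 * (q / 2))) ∧ ¬ q ∣ r ∧
        ¬ (q : ℤ) ∣ (r : ℤ) - 1 := by
    intro q
    by_cases hqP : q ∈ P
    · by_cases hq2 : q = 2
      · exact ⟨0, fun _ h => absurd hq2 h⟩
      · have hq := hPp q hqP
        have hF : Fact q.Prime := ⟨hq⟩
        obtain ⟨r, h1, h2, h3⟩ := classq q hq hq2 (eps (t q) * (-1) ^ (a₈ / 2 * (q / 2))) (by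
          rcases eps_pm (t q) with h | h <;>
            rcases neg_one_pow_eq_or ℤ (a₈ / 2 * (q / 2)) with h' | h' <;> rw [h, h'] <;> norm_num)
          (by
            rintro rfl
            have e1 : (3 / 2 : ℕ) = 1 := by norm_num
            rw [e1, mul_one, hapow, ← eps_add, ← htm _ _ (by norm_num) (by norm_num)]
            have e2 : (((3 : ℕ) : ℤ)) * (-1) = -3 := by norm_num
            rw [e2, ht3]
            decide)
        refine ⟨r, fun _ _ => ⟨?_, h2, h3⟩⟩
        intro _
        exact h1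
    · exact ⟨0, fun h => absurd h hqP⟩
  choose r hr using hr
  obtain ⟨sm, hsm⟩ : ∃ sm : ℕ → ℕ, sm = fun i => if i = 2 then 8 else i := ⟨_, rfl⟩
  obtain ⟨aa, haa⟩ : ∃ aa : ℕ → ℕ, aa = fun i => if i = 2 then a₈ else r i := ⟨_, rfl⟩
  have hsm2 : sm 2 = 8 := by rw [hsm]; rfl
  have hsmq : ∀ q, q ≠ 2 → sm q = q := by
    intro q hq
    rw [hsm]
    exact if_neg hq
  have haa2 : aa 2 = a₈ := by rw [haa]; rfl
  have haaq : ∀ q, q ≠ 2 → aa q = r q := by
    intro q hq
    rw [haa]
    exact if_neg hq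
  obtain ⟨a, ha⟩ := Nat.chineseRemainderOfFinset aa sm P (by
      intro i hi
      by_cases h : i = 2
      · rw [h, hsm2]; norm_num
      · rw [hsmq i h]; exact (hPp i hi).ne_zero) (by
      intro i hi j hj hij
      show Nat.Coprime (sm i) (sm j)
      have hip := hPp i hi
      have hjp := hPp j hj
      have hcop := (Nat.coprime_primes hip hjp).2 hij
      by_cases h : i = 2
      · have h' : j ≠ 2 := fun h2 => hij (h.trans h2.symm)
        rw [h, hsm2, hsmq j h']
        have e : (8 : ℕ) = 2 ^ 3 := by norm_num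
        rw [e]
        rw [h] at hcop
        exact hcop.pow_left 3
      · by_cases h' : j = 2
        · rw [h', hsm2, hsmq i h]
          have e : (8 : ℕ) = 2 ^ 3 := by norm_num
          rw [e]
          rw [h'] at hcop
          exact hcop.pow_right 3
        · rw [hsmq i h, hsmq j h']
          exact hcop)
  have ha8' : a ≡ a₈ [MOD 8] := by
    have := ha 2 h2P
    rwa [hsm2, haa2] at this
  have haq : ∀ q ∈ P, q ≠ 2 → a ≡ r q [MOD q] := by
    intro q hq hq2
    have := ha q hq
    rwa [hsmq q hq2, haaq q hq2] at this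
  refine ⟨8 * ∏ q ∈ P, q, a, ?_, ?_, ?_, ?_, ?_⟩
  · exact Nat.mul_pos (by norm_num) (prod_pos fun q hq => (hPp q hq).pos)
  · exact Dvd.dvd.mul_right (by norm_num) _
  · intro h
    have h1 : a % 8 = a₈ % 8 := ha8'
    omega
  · intro p hp hpQ hp2
    have hpP : p ∈ P := by
      rcases (Nat.Prime.dvd_mul hp).1 hpQ with h | h
      · exfalso
        have h1 : p ∣ 2 ^ 3 := by norm_num; exact h
        exact hp2 ((Nat.prime_dvd_prime_iff_eq hp Nat.prime_two).1 (hp.dvd_of_dvd_pow h1))
      · obtain ⟨q, hq, hpq⟩ := (hp.prime.dvd_finsetProd_iff _).1 h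
        rw [(Nat.prime_dvd_prime_iff_eq hp (hPp q hq)).1 hpq]
        exact hq
    obtain ⟨-, g1, g2⟩ := hr p hpP hp2
    have h1 := haq p hpP hp2
    refine ⟨fun h => g1 ((h1.dvd_iff dvd_rfl).1 h), fun h => g2 ?_⟩
    have h2 : ((a : ℕ) : ℤ) ≡ (r p : ℤ) [ZMOD p] := (Int.natCast_modEq_iff).2 h1
    have h3 := h2.symm.dvd
    have h4 := dvd_sub h h3
    have e : (a : ℤ) - 1 - ((a : ℤ) - r p) = (r p : ℤ) - 1 := by ring
    rwa [e] at h4
  · intro p hp hpa hF n hn
    have hpa8 : p ≡ a [MOD 8] := hpa.of_mul_right _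
    have hp8 : p % 8 = a₈ := by
      have h1 : p % 8 = a % 8 := hpa8
      have h2 : a % 8 = a₈ % 8 := ha8'
      omega
    have hp2 : p ≠ 2 := by
      rintro rfl
      omega
    obtain ⟨hm1, h2⟩ := hap p hp hp8
    have hq : ∀ q ∈ P, legendreSym p q = eps (t q) := by
      intro q hqP
      by_cases hq2 : q = 2
      · rw [hq2]
        exact_mod_cast h2
      · have hqp := hPp q hqP
        have hFq : Fact q.Prime := ⟨hqp⟩
        obtain ⟨g0, -, -⟩ := hr q hqP hq2
        have h3 := legendreSym.quadratic_reciprocity' (p := p) (q := q) hp2 hq2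
        have h4 : legendreSym q p = legendreSym q (r q) := by
          rw [legendreSym.mod, legendreSym.mod q (r q)]
          congr 1
          have h5 : p ≡ r q [MOD q] :=
            (((hpa.of_mul_left 8).of_dvd (dvd_prod_of_mem (fun q => q) hqP))).trans (haq q hqP hq2)
          exact (Int.natCast_modEq_iff).2 h5
        rw [h4, g0] at h3
        have h6 : (-1 : ℤ) ^ (p / 2 * (q / 2)) = (-1) ^ (a₈ / 2 * (q / 2)) := by
          rw [pow_mul, pow_mul]
          congr 1
          obtain ⟨j, hj⟩ : ∃ j, p / 2 = a₈ / 2 + 2 * j := ⟨p / 8 * 2, by omega⟩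
          rw [hj, pow_add, pow_mul]
          norm_num
        rw [h6, mul_comm] at h3
        have h7 : ((-1 : ℤ) ^ (a₈ / 2 * (q / 2))) ≠ 0 := by positivity
        exact (mul_left_cancel₀ h7 h3).symm
    have hnat : ∀ k : ℕ, k ≠ 0 → (∀ q : ℕ, q.Prime → q ∣ k → q ∈ P) →
        legendreSym p k = eps (t k) := by
      intro k
      induction k using Nat.strong_induction_on with
      | _ k ih =>
        intro hk0 hkP
        by_cases hk1 : k = 1
        · rw [hk1]
          push_cast
          rw [legendreSym.at_one, ht1]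
          decide
        · have hq1 := Nat.minFac_prime hk1
          obtain ⟨j, hj⟩ := Nat.minFac_dvd k
          have hj0 : j ≠ 0 := by
            rintro rfl
            apply hk0
            rw [hj, mul_zero]
          have hjk : j < k := by
            rw [hj]
            have := hq1.two_le
            have hjp : 0 < j := Nat.pos_of_ne_zero hj0
            nlinarith
          have h3 := ih j hjk hj0 (fun q hq hqj => hkP q hq (by
            rw [hj]
            exact hqj.mul_left _))
          rw [hj]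
          push_cast
          rw [legendreSym.mul, hq _ (hkP _ hq1 (Nat.minFac_dvd k)), h3, htm _ _ (by
            exact_mod_cast hq1.ne_zero) (by exact_mod_cast hj0), eps_add]
    have hna := hnat n.natAbs (Int.natAbs_ne_zero.2 (h0 n hn)) (fun q hq hqn =>
      hPG n hn q hq (Int.natCast_dvd.2 hqn))
    have hna0 : ((n.natAbs : ℕ) : ℤ) ≠ 0 := by
      have := Int.natAbs_ne_zero.2 (h0 n hn)
      exact_mod_cast this
    have h5 : legendreSym p n = eps (t n) := by
      rcases Int.natAbs_eq n with h | h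
      · rw [h]
        exact hna
      · have e : n = (-1) * (n.natAbs : ℤ) := by omega
        rw [e, legendreSym.mul, hm1, hna, htm _ _ (by norm_num) hna0, eps_add]
    rw [h5, htG n hn]
    decide

end Pool.Agent.U163.SA
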