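import Pool.Agent.N430.LK.Count

/-!
# Counting integers by multiplicative rank and square classes
-/

set_option autoImplicit false

namespace Pool.Agent.U163.SA

open Finset
open Pool.Agent.Y855 (MI)
open Pool.Agent.N430.LK

/-- no product of an odd number of distinct elements of `G` and `-3` is a square -/
def OP3 (G : Finset ℤ) : Prop := ∀ S ⊆ G, ¬ IsSquare ((-3 : ℤ) ^ (S.card + 1) * ∏ n ∈ S, n)

theorem sq_of_mul {a b : ℤ} (h : IsSquare (a * b)) (hb : IsSquare b) (hb0 : b ≠ 0) : IsSquare a := by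
  obtain ⟨c, rfl⟩ := hb
  obtain ⟨e, he⟩ := h
  have hc0 : c ≠ 0 := by
    rintro rfl
    simp at hb0
  have h1 : c ^ 2 ∣ e ^ 2 := ⟨a, by rw [sq, sq, ← he]; ring⟩
  obtain ⟨g, rfl⟩ := (Int.pow_dvd_pow_iff (by norm_num : (2 : ℕ) ≠ 0)).1 h1
  refine ⟨g, ?_⟩
  have h2 : (a - g * g) * (c * c) = 0 := by
    have : a * (c * c) = c * g * (c * g) := he
    linear_combination this
  rcases mul_eq_zero.1 h2 with h3 | h3
  · linarith
  · exact absurd h3 hb0

/-- the integers which depend multiplicatively on a fixed independent set -/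
theorem count_dep (N : ℕ) (I E : Finset ℤ) (hI0 : ∀ n ∈ I, n ≠ 0) (hI : MI I) (h0 : ∀ n ∈ E, n ≠ 0)
    (hN : ∀ n ∈ E, n.natAbs ≤ N) (hE : ∀ n ∈ E, n ∉ I → ¬ MI (insert n I)) :
    E.card ≤ 2 * (Nat.log 2 N + 1) ^ I.card := by
  classical
  set P : Finset ℕ := (Icc 1 N).filter Nat.Prime with hP
  have hPp : ∀ p ∈ P, p.Prime := fun p hp => (mem_filter.1 hp).2
  set V : Submodule ℚ (P → ℚ) :=
    Submodule.span ℚ ((I.image (vv P) : Finset (P → ℚ)) : Set (P → ℚ)) with hV
  have hdim : Module.finrank ℚ V ≤ I.card :=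
    (finrank_span_finset_le_card _).trans card_image_le
  have hmem : ∀ n ∈ E, vv P n ∈ V := by
    intro n hn
    by_cases hnI : n ∈ I
    · apply Submodule.subset_span
      exact mem_coe.2 (mem_image_of_mem _ hnI)
    · exact mem_span P hPp I hI0 hI n (h0 n hn) hnI (hE n hn hnI)
  obtain ⟨T, hT, hT2⟩ := coords I.card V hdim
  -- the injection
  set F : Finset ((T → ℕ) × Bool) :=
    (Fintype.piFinset (fun _ : T => range (Nat.log 2 N + 1))) ×ˢ univ with hF
  have hFc : F.card ≤ 2 * (Nat.log 2 N + 1) ^ I.card := by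
    rw [hF, card_product, Fintype.card_piFinset, prod_const, card_range, card_univ, card_univ,
      Fintype.card_coe, Fintype.card_bool, mul_comm]
    exact Nat.mul_le_mul_left _ (Nat.pow_le_pow_right (Nat.succ_pos _) hT)
  refine le_trans ?_ hFc
  apply card_le_card_of_injOn (fun n : ℤ =>
    ((fun t : T => padicValNat t.1.1 n.natAbs), decide (0 < n)))
  · intro n hn
    have hn' := mem_coe.1 hn
    rw [mem_coe, hF, mem_product]
    refine ⟨?_, mem_univ _⟩
    rw [Fintype.mem_piFinset]
    intro t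
    rw [mem_range]
    have h1 : padicValNat t.1.1 n.natAbs ≤ Nat.log t.1.1 n.natAbs := padicValNat_le_nat_log _
    have h2 : Nat.log t.1.1 n.natAbs ≤ Nat.log 2 n.natAbs :=
      Nat.log_anti_left (by norm_num) (hPp t.1.1 t.1.2).two_le
    have h3 : Nat.log 2 n.natAbs ≤ Nat.log 2 N := Nat.log_mono_right (hN n hn')
    simp only
    omega
  · intro a ha b hb hab
    have ha' := mem_coe.1 ha
    have hb' := mem_coe.1 hb
    simp only [Prod.mk.injEq] at hab
    obtain ⟨h1, h2⟩ := hab
    have hsub : vv P a - vv P b = 0 := by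
      apply hT2 _ (Submodule.sub_mem _ (hmem a ha') (hmem b hb'))
      intro i hi
      have h3 := congrFun h1 ⟨i, hi⟩
      simp only at h3
      rw [Pi.sub_apply]
      unfold vv
      rw [padicValRat.of_int, padicValRat.of_int]
      unfold padicValInt
      rw [h3, sub_self]
    have habs : a.natAbs = b.natAbs := by
      apply Nat.eq_of_factorization_eq (Int.natAbs_ne_zero.2 (h0 a ha'))
        (Int.natAbs_ne_zero.2 (h0 b hb'))
      intro p
      by_cases hp : p.Prime
      · by_cases hpN : p ≤ N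
        · have hpP : p ∈ P := by
            rw [hP, mem_filter, mem_Icc]
            exact ⟨⟨hp.one_le, hpN⟩, hp⟩
          have h4 := congrFun hsub ⟨p, hpP⟩
          rw [Pi.sub_apply, Pi.zero_apply, sub_eq_zero] at h4
          unfold vv at h4
          rw [padicValRat.of_int, padicValRat.of_int] at h4
          unfold padicValInt at h4
          rw [Nat.factorization_def _ hp, Nat.factorization_def _ hp]
          exact_mod_cast h4
        · have h5 : ∀ c : ℤ, c ∈ E → c.natAbs.factorization p = 0 := by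
            intro c hc
            apply Nat.factorization_eq_zero_of_not_dvd
            intro hd
            have h6 := Nat.le_of_dvd (Int.natAbs_pos.2 (h0 c hc)) hd
            have h7 := hN c hc
            omega
          rw [h5 a ha', h5 b hb']
      · rw [Nat.factorization_eq_zero_of_not_prime _ hp, Nat.factorization_eq_zero_of_not_prime _ hp]
    have hsign : (0 < a ↔ 0 < b) := by
      have := h2
      rw [decide_eq_decide] at this
      exact this
    have ha0 := h0 a ha'
    have hb0 := h0 b hb'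
    omega

/-- within one class of non-squares the condition on odd products always holds -/
theorem OP3_of_class (d : ℤ) (hd : d ≠ 0) (I : Finset ℤ) (h0 : ∀ n ∈ I, n ≠ 0)
    (hns : ∀ n ∈ I, ¬ IsSquare n) (hsq : ∀ n ∈ I, IsSquare (n * d)) : OP3 I := by
  intro S hS hcon
  have hS0 : ∏ n ∈ S, n ≠ 0 := by
    rw [prod_ne_zero_iff]
    exact fun n hn => h0 n (hS hn)
  have h1 : IsSquare ((∏ n ∈ S, n) * d ^ S.card) := by
    have h2 : (∏ n ∈ S, n) * d ^ S.card = ∏ n ∈ S, (n * d) := by
      rw [prod_mul_distrib, prod_const]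
    rw [h2]
    exact Finset.prod_induction _ IsSquare (fun a b ha hb => ha.mul hb) IsSquare.one
      (fun n hn => hsq n (hS hn))
  rcases Nat.even_or_odd S.card with he | ho
  · have h2 : IsSquare (∏ n ∈ S, n) := sq_of_mul h1 (he.isSquare_pow _) (pow_ne_zero _ hd)
    have h3 : 0 < ∏ n ∈ S, n := lt_of_le_of_ne h2.nonneg (Ne.symm hS0)
    have h4 : (-3 : ℤ) ^ (S.card + 1) < 0 := (he.add_one).pow_neg (by norm_num)
    have h5 := mul_neg_of_neg_of_pos h4 h3
    have h6 := hcon.nonneg
    omega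
  · have he : Even (S.card + 1) := ho.add_one
    have h2 : IsSquare (∏ n ∈ S, n) := by
      rw [mul_comm] at hcon
      exact sq_of_mul hcon (he.isSquare_pow _) (pow_ne_zero _ (by norm_num))
    obtain ⟨n₀, hn₀⟩ : S.Nonempty := by
      rw [← card_pos]
      exact ho.pos
    have h3 : IsSquare (d * (∏ n ∈ S, n)) := by
      obtain ⟨j, hj⟩ := ho
      rw [hj, pow_succ] at h1
      have h4 : (∏ n ∈ S, n) * (d ^ (2 * j) * d) = (d * ∏ n ∈ S, n) * d ^ (2 * j) := by ring
      rw [h4] at h1
      exact sq_of_mul h1 ((even_two_mul j).isSquare_pow _) (pow_ne_zero _ hd)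
    have h5 : IsSquare d := sq_of_mul h3 h2 hS0
    exact hns n₀ (hS hn₀) (sq_of_mul (hsq n₀ (hS hn₀)) h5 hd)

open Classical in
/-- **Counting.**  If every multiplicatively independent subset with the condition on odd products has at
most `c` elements, then the set is small. -/
theorem count_all (N c : ℕ) (E : Finset ℤ) (h0 : ∀ n ∈ E, n ≠ 0) (hN : ∀ n ∈ E, n.natAbs ≤ N)
    (hns : ∀ n ∈ E, ¬ IsSquare n) (hE : ∀ I ⊆ E, MI I → OP3 I → I.card ≤ c) :
    E.card ≤ (1 + 2 ^ c) * (2 * (Nat.log 2 N + 1) ^ c) := by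
  have hne : (E.powerset.filter (fun I => MI I ∧ OP3 I)).Nonempty := by
    refine ⟨∅, ?_⟩
    rw [mem_filter]
    refine ⟨empty_mem_powerset _, fun c _ n hn => by simp at hn, fun S hS hsq => ?_⟩
    rw [subset_empty.1 hS] at hsq
    have h6 := hsq.nonneg
    norm_num at h6
  obtain ⟨G, hG, hmax⟩ := exists_max_image (E.powerset.filter (fun I => MI I ∧ OP3 I)) card hne
  rw [mem_filter, mem_powerset] at hG
  obtain ⟨hGE, hGM, hGO⟩ := hG
  have hGc : G.card ≤ c := hE G hGE hGM hGO
  obtain ⟨E₁, hE₁⟩ : ∃ E₁ : Finset ℤ, E₁ = E.filter (fun n => n ∈ G ∨ ¬ MI (insert n G)) := ⟨_, rfl⟩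
  obtain ⟨E₂, hE₂⟩ : ∃ E₂ : Finset ℤ → Finset ℤ, E₂ = fun S =>
    E.filter (fun n => IsSquare (n * ((-3 : ℤ) ^ S.card * ∏ g ∈ S, g))) := ⟨_, rfl⟩
  have hpow : ∀ j ≤ c, (Nat.log 2 N + 1) ^ j ≤ (Nat.log 2 N + 1) ^ c := fun j hj =>
    Nat.pow_le_pow_right (Nat.succ_pos _) hj
  have h1 : E₁.card ≤ 2 * (Nat.log 2 N + 1) ^ c := by
    refine (count_dep N G E₁ (fun n hn => h0 n (hGE hn)) hGM (fun n hn => ?_) (fun n hn => ?_)
      (fun n hn hnG => ?_)).trans (Nat.mul_le_mul_left _ (hpow _ hGc))
    · rw [hE₁, mem_filter] at hn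
      exact h0 n hn.1
    · rw [hE₁, mem_filter] at hn
      exact hN n hn.1
    · rw [hE₁, mem_filter] at hn
      exact hn.2.resolve_left hnG
  have h2 : ∀ S ∈ G.powerset, (E₂ S).card ≤ 2 * (Nat.log 2 N + 1) ^ c := by
    intro S hS
    rw [mem_powerset] at hS
    have hsubE : E₂ S ⊆ E := by
      rw [hE₂]
      exact filter_subset _ _
    have hd : (-3 : ℤ) ^ S.card * ∏ g ∈ S, g ≠ 0 := by
      apply mul_ne_zero (pow_ne_zero _ (by norm_num))
      rw [prod_ne_zero_iff]
      exact fun g hg => h0 g (hGE (hS hg))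
    apply count N c (E₂ S) (fun n hn => h0 n (hsubE hn)) (fun n hn => hN n (hsubE hn))
    intro I hI hMI
    apply hE I (hI.trans hsubE) hMI
    apply OP3_of_class _ hd I (fun n hn => h0 n (hsubE (hI hn))) (fun n hn => hns n (hsubE (hI hn)))
    intro n hn
    have := hI hn
    rw [hE₂] at this
    exact (mem_filter.1 this).2
  have hsub : E ⊆ E₁ ∪ G.powerset.biUnion E₂ := by
    intro n hn
    rw [mem_union]
    by_cases hnG : n ∈ G
    · left
      rw [hE₁, mem_filter]
      exact ⟨hn, Or.inl hnG⟩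
    by_cases hMI : MI (insert n G)
    · right
      have hOP : ¬ OP3 (insert n G) := by
        intro hOP
        have h3 := hmax (insert n G) (by
          rw [mem_filter, mem_powerset]
          exact ⟨insert_subset hn hGE, hMI, hOP⟩)
        rw [card_insert_of_notMem hnG] at h3
        omega
      unfold OP3 at hOP
      push Not at hOP
      obtain ⟨S, hS, hsq⟩ := hOP
      have hnS : n ∈ S := by
        by_contra h
        exact hGO S (fun g hg => (mem_insert.1 (hS hg)).resolve_left (fun h' => h (h' ▸ hg))) hsq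
      rw [mem_biUnion]
      refine ⟨S.erase n, ?_, ?_⟩
      · rw [mem_powerset]
        intro g hg
        rw [mem_erase] at hg
        exact (mem_insert.1 (hS hg.2)).resolve_left hg.1
      · rw [hE₂, mem_filter]
        refine ⟨hn, ?_⟩
        rw [card_erase_of_mem hnS]
        have hc : 1 ≤ S.card := card_pos.2 ⟨_, hnS⟩
        have e1 : (-3 : ℤ) ^ (S.card + 1) = (-3) ^ (S.card - 1) * 9 := by
          have : S.card + 1 = (S.card - 1) + 2 := by omega
          rw [this, pow_add]
          norm_num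
        have e2 : n * ∏ g ∈ S.erase n, g = ∏ g ∈ S, g := mul_prod_erase S (fun g => g) hnS
        have e3 : (-3 : ℤ) ^ (S.card + 1) * ∏ g ∈ S, g =
            n * ((-3 : ℤ) ^ (S.card - 1) * ∏ g ∈ S.erase n, g) * 9 := by
          rw [e1, ← e2]
          ring
        rw [e3] at hsq
        exact sq_of_mul hsq ⟨3, by norm_num⟩ (by norm_num)
    · left
      rw [hE₁, mem_filter]
      exact ⟨hn, Or.inr hMI⟩
  refine (card_le_card hsub).trans ((card_union_le _ _).trans ?_)
  have h3 : (G.powerset.biUnion E₂).card ≤ 2 ^ c * (2 * (Nat.log 2 N + 1) ^ c) := by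
    refine card_biUnion_le.trans ((sum_le_card_nsmul _ _ _ h2).trans ?_)
    rw [smul_eq_mul, card_powerset]
    exact Nat.mul_le_mul_right _ (Nat.pow_le_pow_right (by norm_num) hGc)
  calc _ ≤ 2 * (Nat.log 2 N + 1) ^ c + 2 ^ c * (2 * (Nat.log 2 N + 1) ^ c) := Nat.add_le_add h1 h3
    _ = _ := by ring

end Pool.Agent.U163.SA
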