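import Pool.Agent.U163.SA.Exc
import Pool.Agent.U163.SA.Class
import Pool.Agent.U163.SA.Rank

/-!
# Strings of consecutive primes with a common primitive root
-/

set_option autoImplicit false

namespace Pool.Agent.U163.SA

open Finset Filter
open Pool.Agent.Y855 (MI)

/-- the interval `(y, y + H]` contains at least `m` primes, and `n` is a primitive root modulo every
prime in it -/
def StrN (m H : ℕ) (n : ℤ) (y : ℕ) : Prop :=
  m ≤ ((Ioc y (y + H)).filter (fun p => p.Prime)).card ∧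
    ∀ p ∈ Ioc y (y + H), p.Prime → orderOf (n : ZMod p) = p - 1

theorem strN_of (m H : ℕ) (n : ℤ) (y : ℕ) (hy : 2 ≤ y)
    (h1 : m < ((Ioc y (y + H)).filter (fun p => p.Prime)).card) (h2 : ¬ BadAt H n y)
    (h3 : ∀ p ∈ Ioc y (y + H), ∀ [Fact p.Prime], legendreSym p n = -1) : StrN m H n y := by
  refine ⟨h1.le, fun p hp hpp => ?_⟩
  have hF : Fact p.Prime := ⟨hpp⟩
  have hpI := mem_Ioc.1 hp
  have hpn : ¬ (p : ℤ) ∣ n := fun h => h2 ⟨p, hp, hpp, Or.inl h⟩
  rw [Pool.Agent.Y855.order_iff' n p (by omega) hpn]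
  refine ⟨h3 p hp, ?_⟩
  rintro ⟨l, hl, hl3, hlp, h⟩
  exact h2 ⟨p, hp, hpp, Or.inr ⟨l, hl, hl3, hlp, h⟩⟩

open Classical in
/-- one of many independent integers -/
theorem one_of_many (m : ℕ) : ∃ B C₀ : ℕ, ∀ G : Finset ℤ, (∀ n ∈ G, n ≠ 0) → MI G → OP3 G →
    C₀ < G.card → ∃ n ∈ G, ∃ H : ℕ, ∃ᶠ x : ℕ in atTop,
      (x : ℝ) / Real.log x ^ B ≤ (((Ioc x (2 * x)).filter (fun y => StrN m H n y)).card : ℝ) := by
  obtain ⟨B, C₀, R, hR, hcore⟩ := core m
  refine ⟨B + 1, C₀, fun G hG0 hMI hOP hGc => ?_⟩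
  obtain ⟨Q, a, hQ0, hQ4, ha2, haQ, hleg⟩ := exists_class G hG0 hOP
  obtain ⟨H, hH⟩ := hcore Q hQ0 hQ4 a ha2 haQ
  obtain ⟨N, hN⟩ : ∃ N : ℕ, N = (∑ n ∈ G, n.natAbs) + 1 := ⟨_, rfl⟩
  have hGN : ∀ n ∈ G, n.natAbs ≤ N := by
    intro n hn
    have := single_le_sum (f := fun n : ℤ => n.natAbs) (fun _ _ => Nat.zero_le _) hn
    omega
  have hev1 : ∀ᶠ x : ℕ in atTop, Real.log N ≤ (x : ℝ) ^ (1 / (2 * (R : ℝ))) :=
    ((tendsto_rpow_atTop (by
      have : (0 : ℝ) < R := by exact_mod_cast (by omega : 0 < R)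
      positivity)).comp tendsto_natCast_atTop_atTop).eventually_ge_atTop _
  have hev2 : ∀ᶠ x : ℕ in atTop, (2 * G.card + 2 : ℝ) ≤ Real.log (x : ℝ) :=
    (Real.tendsto_log_atTop.comp tendsto_natCast_atTop_atTop).eventually_ge_atTop _
  have hGpos : 0 < G.card := by omega
  have hGr : (0 : ℝ) < G.card := by exact_mod_cast hGpos
  have key : ∀ᶠ x : ℕ in atTop, ∃ n ∈ G, (x : ℝ) / Real.log x ^ (B + 1) ≤
      (((Ioc x (2 * x)).filter (fun y => StrN m H n y)).card : ℝ) := by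
    filter_upwards [hH G.card, hev1, hev2, eventually_ge_atTop 4] with x hx hx1 hx2 hx4
    obtain ⟨T, hTx, hT1, hT2, hT3⟩ := hx
    have hT4 := hT3 N (by omega) hx1 G (fun n hn => ⟨hG0 n hn, hGN n hn⟩) hMI le_rfl
    obtain ⟨U, hU⟩ : ∃ U : Finset ℕ,
      U = T.filter (fun y => C₀ < (G.filter (fun n => BadAt H n y)).card) := ⟨_, rfl⟩
    rw [← hU] at hT4
    have hlx : 0 < Real.log x := by linarith
    have hU2 : (U.card : ℝ) ≤ T.card / 2 := by
      have h1 : (2 : ℝ) * U.card ≤ Real.log x * U.card :=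
        mul_le_mul_of_nonneg_right (by linarith) (Nat.cast_nonneg _)
      linarith
    have hsub : T \ U ⊆ G.biUnion (fun n => (Ioc x (2 * x)).filter (fun y => StrN m H n y)) := by
      intro y hy
      obtain ⟨hyT, hyU⟩ := Finset.mem_sdiff.1 hy
      have h1 : (G.filter (fun n => BadAt H n y)).card ≤ C₀ := by
        by_contra hcon
        exact hyU (by rw [hU, mem_filter]; exact ⟨hyT, not_le.1 hcon⟩)
      obtain ⟨n, hn, hnb⟩ : ∃ n ∈ G, ¬ BadAt H n y := by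
        by_contra hcon
        push Not at hcon
        rw [filter_true_of_mem hcon] at h1
        omega
      rw [mem_biUnion]
      refine ⟨n, hn, ?_⟩
      rw [mem_filter]
      refine ⟨hTx hyT, ?_⟩
      obtain ⟨g1, g2⟩ := hT2 y hyT
      have hyx := mem_Ioc.1 (hTx hyT)
      apply strN_of m H n y (by omega) g1 hnb
      intro p hp hF
      exact hleg p hF.1 (g2 p hp hF.1) n hn
    have h1 : ((T \ U).card : ℝ) ≤
        ∑ n ∈ G, (((Ioc x (2 * x)).filter (fun y => StrN m H n y)).card : ℝ) := by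
      exact_mod_cast (card_le_card hsub).trans card_biUnion_le
    have h2 : (T.card : ℝ) - U.card ≤ ((T \ U).card : ℝ) := by
      have h3 := le_card_sdiff U T
      have h4 : T.card ≤ (T \ U).card + U.card := by omega
      have h5 : (T.card : ℝ) ≤ (T \ U).card + U.card := by exact_mod_cast h4
      linarith
    by_contra hcon
    push Not at hcon
    have h3 : ∑ n ∈ G, (((Ioc x (2 * x)).filter (fun y => StrN m H n y)).card : ℝ) <
        G.card * ((x : ℝ) / Real.log x ^ (B + 1)) := by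
      rw [← nsmul_eq_mul, ← sum_const]
      exact sum_lt_sum_of_nonempty (card_pos.1 hGpos) hcon
    have h4 : (T.card : ℝ) / 2 < G.card * ((x : ℝ) / Real.log x ^ (B + 1)) := by linarith
    have h5 : (x : ℝ) / Real.log x ^ (B + 1) * Real.log x ≤ T.card := by
      rw [pow_succ, div_mul_eq_mul_div, mul_div_mul_right _ _ hlx.ne', div_le_iff₀ (by positivity)]
      linarith
    have h6 : 0 ≤ (x : ℝ) / Real.log x ^ (B + 1) := by positivity
    have h7 : (x : ℝ) / Real.log x ^ (B + 1) * (2 * G.card) ≤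
        (x : ℝ) / Real.log x ^ (B + 1) * Real.log x :=
      mul_le_mul_of_nonneg_left (by linarith) h6
    linarith
  by_contra hcon
  push Not at hcon
  have h1 : ∀ n ∈ G, ∀ᶠ x : ℕ in atTop, ¬ ((x : ℝ) / Real.log x ^ (B + 1) ≤
      (((Ioc x (2 * x)).filter (fun y => StrN m H n y)).card : ℝ)) := by
    intro n hn
    have := hcon n hn H
    simpa [Filter.Frequently] using this
  obtain ⟨x, hx1, hx2⟩ := (key.and ((Finset.eventually_all G).2 h1)).exists
  obtain ⟨n, hn, hx3⟩ := hx1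
  exact hx2 n hn hx3

open Classical in
/-- **Strings of consecutive primes with primitive root `n`, for all but few `n`.** -/
theorem main (m : ℕ) : ∃ B C : ℕ,
    (∀ G : Finset ℤ, MI G → OP3 G → (∀ n ∈ G, ¬ ∃ H : ℕ, ∃ᶠ x : ℕ in atTop,
      (x : ℝ) / Real.log x ^ B ≤ (((Ioc x (2 * x)).filter (fun y => StrN m H n y)).card : ℝ)) →
      G.card ≤ C) ∧ ∀ N : ℕ, 3 ≤ N →
    (((Icc (-(N : ℤ)) N).filter (fun n : ℤ => ¬ IsSquare n ∧ ¬ ∃ H : ℕ, ∃ᶠ x : ℕ in atTop,
      (x : ℝ) / Real.log x ^ B ≤ (((Ioc x (2 * x)).filter (fun y => StrN m H n y)).card : ℝ))).card : ℝ)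
      ≤ C * Real.log N ^ C := by
  obtain ⟨B, c, h⟩ := one_of_many m
  obtain ⟨C, hC⟩ : ∃ C : ℕ, C = (1 + 2 ^ c) * 2 * 3 ^ c := ⟨_, rfl⟩
  have hcC : c ≤ C := by
    have h6 : c < 2 ^ c := Nat.lt_two_pow_self
    have h7 : 1 ≤ 3 ^ c := Nat.one_le_pow _ _ (by norm_num)
    rw [hC]
    nlinarith
  refine ⟨B, C, fun G hMI hOP hG => ?_, fun N hN => ?_⟩
  · refine le_trans ?_ hcC
    by_contra hcon
    have hG0 : ∀ n ∈ G, n ≠ 0 := by
      rintro n hn rfl
      apply hOP {0} (singleton_subset_iff.2 hn)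
      rw [prod_singleton, mul_zero]
      exact ⟨0, by norm_num⟩
    obtain ⟨n, hn, hH⟩ := h G hG0 hMI hOP (not_le.1 hcon)
    exact hG n hn hH
  obtain ⟨E, hE⟩ : ∃ E : Finset ℤ, E = (Icc (-(N : ℤ)) N).filter (fun n : ℤ => ¬ IsSquare n ∧
    ¬ ∃ H : ℕ, ∃ᶠ x : ℕ in atTop, (x : ℝ) / Real.log x ^ B ≤
      (((Ioc x (2 * x)).filter (fun y => StrN m H n y)).card : ℝ)) := ⟨_, rfl⟩
  rw [← hE]
  have hEm : ∀ n ∈ E, n.natAbs ≤ N ∧ ¬ IsSquare n ∧ ¬ ∃ H : ℕ, ∃ᶠ x : ℕ in atTop,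
      (x : ℝ) / Real.log x ^ B ≤ (((Ioc x (2 * x)).filter (fun y => StrN m H n y)).card : ℝ) := by
    intro n hn
    rw [hE, mem_filter, mem_Icc] at hn
    exact ⟨by omega, hn.2⟩
  have hE0 : ∀ n ∈ E, n ≠ 0 := by
    rintro n hn rfl
    exact (hEm 0 hn).2.1 ⟨0, by norm_num⟩
  have h1 := count_all N c E hE0 (fun n hn => (hEm n hn).1) (fun n hn => (hEm n hn).2.1) (by
    intro I hI hMI hOP
    by_contra hcon
    obtain ⟨n, hn, hH⟩ := h I (fun n hn => hE0 n (hI hn)) hMI hOP (not_le.1 hcon)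
    exact (hEm n (hI hn)).2.2 hH)
  have hN3 : (3 : ℝ) ≤ N := by exact_mod_cast hN
  have hlN : 1 ≤ Real.log N := by
    have h2 : Real.exp 1 ≤ N := by
      have := Real.exp_one_lt_d9
      linarith
    have h3 := Real.log_le_log (Real.exp_pos 1) h2
    rwa [Real.log_exp] at h3
  have h2 := Pool.Agent.N430.LK.log2_real N (by omega)
  have h3 : (Nat.log 2 N : ℝ) + 1 ≤ 3 * Real.log N := by linarith
  have h4 : (E.card : ℝ) ≤ (1 + 2 ^ c) * (2 * ((Nat.log 2 N : ℝ) + 1) ^ c) := by exact_mod_cast h1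
  have h5 : ((Nat.log 2 N : ℝ) + 1) ^ c ≤ (3 * Real.log N) ^ c := pow_le_pow_left₀ (by positivity) h3 c
  calc (E.card : ℝ) ≤ (1 + 2 ^ c) * (2 * ((Nat.log 2 N : ℝ) + 1) ^ c) := h4
    _ ≤ (1 + 2 ^ c) * (2 * (3 * Real.log N) ^ c) := by
        apply mul_le_mul_of_nonneg_left _ (by positivity)
        exact mul_le_mul_of_nonneg_left h5 (by norm_num)
    _ = C * Real.log N ^ c := by
        rw [hC, mul_pow]
        push_cast
        ring
    _ ≤ _ := by
        apply mul_le_mul_of_nonneg_left _ (by positivity)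
        exact pow_le_pow_right₀ hlN hcC

end Pool.Agent.U163.SA
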