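import Pool.Agent.U163.SA.Ultra
import Pool.Agent.U163.SA.Pair

/-!
# Strings of consecutive primes with prescribed quadratic symbols and maximal orders
-/

set_option autoImplicit false

namespace Pool.Agent.U163.SA

open Finset Filter
open Pool.Agent.Y855 (MI)

/-- a completely multiplicative function from the nonzero integers to `{1, -1}` -/
def SignFn (χ : ℤ → ℤ) : Prop :=
  (∀ n, n ≠ 0 → χ n = 1 ∨ χ n = -1) ∧ ∀ n k, n ≠ 0 → k ≠ 0 → χ (n * k) = χ n * χ k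

/-- `(y, y + H]` contains at least `m` primes `p`, and for each of them and all `n ∈ F`: `n` is a
quadratic residue mod `p` iff `χ n = 1`, and the order of `n` is as large as the symbols permit -/
def StrF (m H : ℕ) (χ : ℤ → ℤ) (F : Finset ℤ) (y : ℕ) : Prop :=
  m ≤ ((Ioc y (y + H)).filter (fun p => p.Prime)).card ∧
    ∀ p ∈ Ioc y (y + H), p.Prime → ∀ n ∈ F, (IsSquare (n : ZMod p) ↔ χ n = 1) ∧
      (χ n = -1 → orderOf (n : ZMod p) = p - 1) ∧
      (χ n = 1 → χ (-1) = -1 → 2 * orderOf (n : ZMod p) = p - 1)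

/-- the functional of a sign function -/
noncomputable def tf (χ : ℤ → ℤ) (n : ℤ) : ZMod 2 := if χ n = 1 then 0 else 1

theorem eps_tf {χ : ℤ → ℤ} (h : SignFn χ) (n : ℤ) (hn : n ≠ 0) : eps (tf χ n) = χ n := by
  unfold tf
  rcases h.1 n hn with h1 | h1
  · rw [if_pos h1, h1]
    decide
  · rw [if_neg (by rw [h1]; norm_num), h1]
    decide

theorem chi_one {χ : ℤ → ℤ} (h : SignFn χ) : χ 1 = 1 := by
  have h1 := h.2 1 1 one_ne_zero one_ne_zero
  rw [mul_one] at h1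
  rcases h.1 1 one_ne_zero with h2 | h2
  · exact h2
  · rw [h2] at h1
    norm_num at h1

open Classical in
/-- one level -/
theorem chi_level (m : ℕ) : ∃ B C₀ : ℕ, ∀ χ : ℤ → ℤ, SignFn χ → χ (-3) = -1 → ∀ j : ℕ,
    ∃ H : ℕ, ∃ E : Set ℤ, (∀ M : Finset ℤ, (∀ n ∈ M, n ≠ 0 ∧ n ∈ E) → MI M → M.card ≤ C₀) ∧
      ∀ F : Finset ℤ, (∀ n ∈ F, n ≠ 0 ∧ n ∉ E ∧ ∀ q : ℕ, q.Prime → (q : ℤ) ∣ n → q ≤ j) →
        ∃ᶠ x : ℕ in atTop, (x : ℝ) / Real.log x ^ B ≤
          (((Ioc x (2 * x)).filter (fun y => StrF m H χ F y)).card : ℝ) := by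
  obtain ⟨B, C₀, R, hR, hcore⟩ := core2 m
  refine ⟨B + 1, C₀, fun χ hχ hχ3 j => ?_⟩
  obtain ⟨P, hP⟩ : ∃ P : Finset ℕ, P = insert 2 ((range (j + 1)).filter Nat.Prime) := ⟨_, rfl⟩
  obtain ⟨Q, a, hQ0, hQ4, ha2, haQ, hleg⟩ := Pool.Agent.U163.SL.class_t P (by
      intro q hq
      rw [hP, mem_insert, mem_filter] at hq
      rcases hq with rfl | hq
      · exact Nat.prime_two
      · exact hq.2) (by rw [hP]; exact mem_insert_self _ _) (tf χ) (by
      unfold tf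
      rw [if_pos (chi_one hχ)]) (by
      intro n k hn hk
      unfold tf
      rw [hχ.2 n k hn hk]
      rcases hχ.1 n hn with h1 | h1 <;> rcases hχ.1 k hk with h2 | h2 <;> rw [h1, h2] <;> decide)
      (by
      unfold tf
      rw [if_neg (by rw [hχ3]; norm_num)])
  have hlegP : ∀ p : ℕ, p.Prime → p ≡ a [MOD Q] → ∀ [Fact p.Prime], ∀ n : ℤ, n ≠ 0 →
      (∀ q : ℕ, q.Prime → (q : ℤ) ∣ n → q ≤ j) → legendreSym p n = χ n := by
    intro p hp hpa _ n hn hnq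
    rw [hleg p hp hpa n hn (by
      intro q hq hqn
      rw [hP]
      refine mem_insert_of_mem (mem_filter.2 ⟨mem_range.2 ?_, hq⟩)
      have := hnq q hq hqn
      omega), eps_tf hχ n hn]
  obtain ⟨H, T, hT, hcM⟩ := hcore Q hQ0 hQ4 a ha2 haQ
  have hTpos : ∀ᶠ x : ℕ in atTop, 0 < (T x).card := by
    filter_upwards [hT, eventually_ge_atTop 1] with x hx hx1
    rcases Nat.eq_zero_or_pos (T x).card with h | h
    · exfalso
      have h1 := hx.2.1
      rw [h] at h1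
      push_cast at h1
      have h2 : (1 : ℝ) ≤ x := by exact_mod_cast hx1
      linarith
    · exact h
  obtain ⟨E, hE1, hE2⟩ := one_level T hTpos H C₀ (by
    intro M hM0 hMI
    obtain ⟨N, hN⟩ : ∃ N : ℕ, N = (∑ n ∈ M, n.natAbs) + 1 := ⟨_, rfl⟩
    have hMN : ∀ n ∈ M, n.natAbs ≤ N := by
      intro n hn
      have := single_le_sum (f := fun n : ℤ => n.natAbs) (fun _ _ => Nat.zero_le _) hn
      omega
    have hev1 : ∀ᶠ x : ℕ in atTop, Real.log N ≤ (x : ℝ) ^ (1 / (2 * (R : ℝ))) :=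
      ((tendsto_rpow_atTop (by
        have : (0 : ℝ) < R := by exact_mod_cast (by omega : 0 < R)
        positivity)).comp tendsto_natCast_atTop_atTop).eventually_ge_atTop _
    filter_upwards [hcM M.card, hev1] with x hx hx1
    exact hx N (by omega) hx1 M (fun n hn => ⟨hM0 n hn, hMN n hn⟩) hMI le_rfl)
  refine ⟨H, E, hE1, fun F hF => ?_⟩
  have h1 := hE2 F (fun n hn => (hF n hn).2.1)
  have hlog : ∀ᶠ x : ℕ in atTop, (1 : ℝ) ≤ Real.log (x : ℝ) :=
    (Real.tendsto_log_atTop.comp tendsto_natCast_atTop_atTop).eventually_ge_atTop _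
  refine (h1.and_eventually (hT.and (hlog.and (eventually_ge_atTop 4)))).mono ?_
  rintro x ⟨hx1, ⟨hx2, hx3, hx4⟩, hx5, hx6⟩
  have hsub : (T x).filter (fun y => ∀ n ∈ F, ¬ BadAt H n y) ⊆
      (Ioc x (2 * x)).filter (fun y => StrF m H χ F y) := by
    intro y hy
    rw [mem_filter] at hy ⊢
    obtain ⟨hyT, hyF⟩ := hy
    refine ⟨hx2 hyT, ?_⟩
    obtain ⟨g1, g2⟩ := hx4 y hyT
    refine ⟨g1.le, fun p hp hpp n hn => ?_⟩
    have hFp : Fact p.Prime := ⟨hpp⟩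
    have hyx := mem_Ioc.1 (hx2 hyT)
    have hpI := mem_Ioc.1 hp
    obtain ⟨hn0, -, hnj⟩ := hF n hn
    have hpn : ¬ (p : ℤ) ∣ n := fun h => hyF n hn ⟨p, hp, hpp, Or.inl h⟩
    have hpn0 : (n : ZMod p) ≠ 0 := fun h => hpn ((ZMod.intCast_zmod_eq_zero_iff_dvd _ _).1 h)
    have hno : ¬ ∃ l : ℕ, l.Prime ∧ 3 ≤ l ∧ l ∣ p - 1 ∧ (n : ZMod p) ^ ((p - 1) / l) = 1 := by
      rintro ⟨l, hl, hl3, hlp, h⟩
      exact hyF n hn ⟨p, hp, hpp, Or.inr ⟨l, hl, hl3, hlp, h⟩⟩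
    have hL : legendreSym p n = χ n := hlegP p hpp (g2 p hp hpp) n hn0 hnj
    have hord := Pool.Agent.Y855.order_iff' n p (by omega) hpn
    refine ⟨?_, fun h => ?_, fun h h' => ?_⟩
    · rw [← legendreSym.eq_one_iff p hpn0, hL]
    · rw [hord, hL]
      exact ⟨h, hno⟩
    · have hL1 : legendreSym p (-1) = χ (-1) := hlegP p hpp (g2 p hp hpp) (-1) (by norm_num) (by
        intro q hq hqn
        exfalso
        have h2 : q ∣ 1 := Int.natCast_dvd.1 hqn
        exact hq.one_lt.ne' (Nat.dvd_one.1 h2))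
      rw [h', legendreSym.eq_neg_one_iff] at hL1
      push_cast at hL1
      rw [ZMod.exists_sq_eq_neg_one_iff, not_not] at hL1
      have h3 := (Pool.Agent.Y855.order_iff3 n p hpp hL1 hpn).2 hno
      rcases h3 with h3 | h3
      · exfalso
        have h4 := (hord.1 h3).1
        rw [hL, h] at h4
        norm_num at h4
      · exact h3
  have h6 : (((T x).filter (fun y => ∀ n ∈ F, ¬ BadAt H n y)).card : ℝ) ≤
      (((Ioc x (2 * x)).filter (fun y => StrF m H χ F y)).card : ℝ) := by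
    exact_mod_cast card_le_card hsub
  refine le_trans ?_ h6
  have hlx : 0 < Real.log x := by linarith
  rw [div_le_iff₀ (by positivity), pow_succ]
  calc (x : ℝ) ≤ Real.log x ^ B * (T x).card := hx3
    _ ≤ Real.log x ^ B * (Real.log x *
        (((T x).filter (fun y => ∀ n ∈ F, ¬ BadAt H n y)).card : ℝ)) :=
        mul_le_mul_of_nonneg_left hx1 (by positivity)
    _ = _ := by ring

open Classical in
/-- **One exceptional set for all finite sets of integers.** -/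
theorem main2 (m : ℕ) : ∃ B C : ℕ, ∀ χ : ℤ → ℤ, SignFn χ → χ (-3) = -1 →
    ∃ E : Set ℤ, (∀ M : Finset ℤ, (∀ n ∈ M, n ≠ 0 ∧ n ∈ E) → MI M → M.card ≤ C) ∧
      (∀ N : ℕ, 3 ≤ N → (((Icc (-(N : ℤ)) N).filter (fun n => n ≠ 0 ∧ n ∈ E)).card : ℝ) ≤
        C * Real.log N ^ C) ∧
      ∀ F : Finset ℤ, (∀ n ∈ F, n ≠ 0 ∧ n ∉ E) → ∃ H : ℕ, ∃ᶠ x : ℕ in atTop,
        (x : ℝ) / Real.log x ^ B ≤
          (((Ioc x (2 * x)).filter (fun y => StrF m H χ F y)).card : ℝ) := by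
  obtain ⟨B, c, hlev⟩ := chi_level m
  obtain ⟨C, hC⟩ : ∃ C : ℕ, C = 2 * 3 ^ c := ⟨_, rfl⟩
  have hcC : c ≤ C := by
    have h6 : c < 3 ^ c := Nat.lt_pow_self (by norm_num)
    omega
  refine ⟨B, C, fun χ hχ hχ3 => ?_⟩
  have hlev' := hlev χ hχ hχ3
  choose H E hE1 hE2 using hlev'
  obtain ⟨E₀, hE₀⟩ : ∃ E₀ : Set ℤ, E₀ = {n | ∀ᶠ j in (hyperfilter ℕ : Filter ℕ), n ∈ E j} := ⟨_, rfl⟩
  have hrank : ∀ M : Finset ℤ, (∀ n ∈ M, n ≠ 0 ∧ n ∈ E₀) → MI M → M.card ≤ c := by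
    intro M hM hMI
    have h1 : ∀ᶠ j in (hyperfilter ℕ : Filter ℕ), ∀ n ∈ M, n ∈ E j :=
      (Finset.eventually_all M).2 fun n hn => by
        have := (hM n hn).2
        rw [hE₀] at this
        exact this
    obtain ⟨j, hj⟩ := h1.exists
    exact hE1 j M (fun n hn => ⟨(hM n hn).1, hj n hn⟩) hMI
  refine ⟨E₀, fun M hM hMI => (hrank M hM hMI).trans hcC, fun N hN => ?_, fun F hF => ?_⟩
  · have h1 := Pool.Agent.N430.LK.count N c
      ((Icc (-(N : ℤ)) N).filter (fun n => n ≠ 0 ∧ n ∈ E₀)) (fun n hn => (mem_filter.1 hn).2.1)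
      (fun n hn => by
        have := mem_Icc.1 (mem_filter.1 hn).1
        omega)
      (fun I hI hMI => hrank I (fun n hn => (mem_filter.1 (hI hn)).2) hMI)
    have hN3 : (3 : ℝ) ≤ N := by exact_mod_cast hN
    have hlN : 1 ≤ Real.log N := by
      have h2 : Real.exp 1 ≤ N := by
        have := Real.exp_one_lt_d9
        linarith
      have h3 := Real.log_le_log (Real.exp_pos 1) h2
      rwa [Real.log_exp] at h3
    have h2 := Pool.Agent.N430.LK.log2_real N (by omega)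
    have h3 : (Nat.log 2 N : ℝ) + 1 ≤ 3 * Real.log N := by linarith
    have h4 : ((((Icc (-(N : ℤ)) N).filter (fun n => n ≠ 0 ∧ n ∈ E₀)).card : ℕ) : ℝ) ≤
        2 * ((Nat.log 2 N : ℝ) + 1) ^ c := by exact_mod_cast h1
    have h5 : ((Nat.log 2 N : ℝ) + 1) ^ c ≤ (3 * Real.log N) ^ c :=
      pow_le_pow_left₀ (by positivity) h3 c
    calc _ ≤ 2 * ((Nat.log 2 N : ℝ) + 1) ^ c := h4
      _ ≤ 2 * (3 * Real.log N) ^ c := mul_le_mul_of_nonneg_left h5 (by norm_num)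
      _ = C * Real.log N ^ c := by
          rw [hC, mul_pow]
          push_cast
          ring
      _ ≤ _ := by
          apply mul_le_mul_of_nonneg_left _ (by positivity)
          exact pow_le_pow_right₀ hlN hcC
  · obtain ⟨J, hJ⟩ : ∃ J : ℕ, J = ∑ n ∈ F, n.natAbs := ⟨_, rfl⟩
    have h1 : ∀ᶠ j in (hyperfilter ℕ : Filter ℕ), ∀ n ∈ F, n ∉ E j :=
      (Finset.eventually_all F).2 fun n hn => by
        have := (hF n hn).2
        rw [hE₀] at this
        exact Ultrafilter.eventually_not.2 this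
    have h2 : ∀ᶠ j in (hyperfilter ℕ : Filter ℕ), J ≤ j :=
      (eventually_ge_atTop J).filter_mono Nat.hyperfilter_le_atTop
    obtain ⟨j, hj1, hj2⟩ := (h1.and h2).exists
    refine ⟨H j, hE2 j F fun n hn => ⟨(hF n hn).1, hj1 n hn, fun q _ hqn => ?_⟩⟩
    have h3 : q ≤ n.natAbs := Nat.le_of_dvd (Int.natAbs_pos.2 (hF n hn).1) (Int.natCast_dvd.1 hqn)
    have h4 := single_le_sum (f := fun n : ℤ => n.natAbs) (fun _ _ => Nat.zero_le _) hn
    have h5 : n.natAbs ≤ J := by rw [hJ]; exact h4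
    omega

end Pool.Agent.U163.SA
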