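import Pool.Agent.U163.SA.Runs
import Pool.Agent.N430.LK.RankSet
import Pool.Agent.Y855.A17

/-!
# At most boundedly many of the multiplicatively independent integers fail in a string
-/

set_option autoImplicit false

namespace Pool.Agent.U163.SA

open Finset Filter
open Pool.Agent.Y855 (MI Exc TT OP LF mem_OP)

/-- `n` fails for a prime of `(y, y + H]` -/
def BadAt (H : ℕ) (n : ℤ) (y : ℕ) : Prop :=
  ∃ p ∈ Ioc y (y + H), p.Prime ∧ ((p : ℤ) ∣ n ∨
    ∃ l : ℕ, l.Prime ∧ 3 ≤ l ∧ l ∣ p - 1 ∧ (n : ZMod p) ^ ((p - 1) / l) = 1)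

open Classical in
/-- one prime -/
theorem one_prime (M : Finset ℤ) (X z R p : ℕ) (hX : 3 ≤ X) (hz : 2 ≤ z) (hR : X ^ 2 ≤ z ^ R)
    (hp : p ∈ TT X z) (hpM : ∀ n ∈ M, ¬ (p : ℤ) ∣ n) (hE : ∀ r ∈ Icc 2 R, p ∉ Exc X r M) (S : ℝ)
    (hS0 : 0 ≤ S) (hS : 2 * Real.log X ≤ S * Real.log z) :
    ((M.filter (fun n : ℤ => (p : ℤ) ∣ n ∨ ∃ l : ℕ, l.Prime ∧ 3 ≤ l ∧ l ∣ p - 1 ∧
      (n : ZMod p) ^ ((p - 1) / l) = 1)).card : ℝ) ≤ S * S := by
  have hp' := hp
  unfold TT at hp'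
  rw [mem_filter, mem_Icc] at hp'
  have hpp := hp'.2.1
  have hz2 : (2 : ℝ) ≤ z := by exact_mod_cast hz
  have hlz : 0 < Real.log z := Real.log_pos (by linarith)
  have hX0 : (3 : ℝ) ≤ X := by exact_mod_cast hX
  have hlX : 0 < Real.log X := Real.log_pos (by linarith)
  have hsub : M.filter (fun n : ℤ => (p : ℤ) ∣ n ∨ ∃ l : ℕ, l.Prime ∧ 3 ≤ l ∧ l ∣ p - 1 ∧
      (n : ZMod p) ^ ((p - 1) / l) = 1) ⊆
      (LF z p).biUnion (fun l => M.filter (fun n : ℤ => (n : ZMod p) ^ ((p - 1) / l) = 1)) := by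
    intro n hn
    rw [mem_filter] at hn
    obtain ⟨hnM, h | ⟨l, hl, hl3, hlp, hln⟩⟩ := hn
    · exact absurd h (hpM n hnM)
    · rw [mem_biUnion]
      refine ⟨l, ?_, mem_filter.2 ⟨hnM, hln⟩⟩
      unfold LF
      rw [mem_filter, Nat.mem_primeFactors]
      refine ⟨⟨hl, hlp, by have := hpp.two_le; omega⟩, ?_⟩
      by_contra hcon
      exact hp'.2.2 l (mem_OP.2 ⟨hl, hl3, by omega⟩) hlp
  have h1 : ((M.filter (fun n : ℤ => (p : ℤ) ∣ n ∨ ∃ l : ℕ, l.Prime ∧ 3 ≤ l ∧ l ∣ p - 1 ∧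
      (n : ZMod p) ^ ((p - 1) / l) = 1)).card : ℝ) ≤
      ∑ l ∈ LF z p, ((M.filter (fun n : ℤ => (n : ZMod p) ^ ((p - 1) / l) = 1)).card : ℝ) := by
    exact_mod_cast (card_le_card hsub).trans card_biUnion_le
  refine h1.trans ?_
  have h2 : ∀ l ∈ LF z p, ((M.filter (fun n : ℤ => (n : ZMod p) ^ ((p - 1) / l) = 1)).card : ℝ) ≤
      S := by
    intro l hl
    unfold LF at hl
    rw [mem_filter] at hl
    have h3 := Pool.Agent.Y855.few_powers M X z R hX hz hR p hp'.1.2 hpp hpM hE l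
      (Nat.prime_of_mem_primeFactors hl.1) (Nat.dvd_of_mem_primeFactors hl.1) hl.2
    refine h3.trans ?_
    have h4 : Real.log z ≤ Real.log l :=
      Real.log_le_log (by linarith) (by exact_mod_cast hl.2.le)
    rw [div_le_iff₀ (by linarith)]
    exact hS.trans (mul_le_mul_of_nonneg_left h4 hS0)
  refine (Finset.sum_le_sum h2).trans ?_
  rw [sum_const, nsmul_eq_mul]
  apply mul_le_mul_of_nonneg_right _ hS0
  refine (Pool.Agent.Y855.LF_card X z p hz hp).trans ?_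
  rw [div_le_iff₀ hlz]
  linarith

open Classical in
/-- **At most boundedly many of the multiplicatively independent integers fail in a string.** -/
theorem core (m : ℕ) : ∃ (B C₀ R : ℕ), 1 ≤ R ∧ ∀ Q : ℕ, 0 < Q → 4 ∣ Q →
    ∀ a : ℕ, ¬ 2 ∣ a → (∀ p : ℕ, p.Prime → p ∣ Q → p ≠ 2 → ¬ p ∣ a ∧ ¬ (p : ℤ) ∣ (a : ℤ) - 1) →
    ∃ H : ℕ, ∀ m₁ : ℕ, ∀ᶠ x : ℕ in atTop, ∃ T ⊆ Ioc x (2 * x),
      (x : ℝ) ≤ Real.log x ^ B * T.card ∧
      (∀ y ∈ T, m < ((Ioc y (y + H)).filter (fun p => p.Prime)).card ∧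
        ∀ p ∈ Ioc y (y + H), p.Prime → p ≡ a [MOD Q]) ∧
      ∀ N : ℕ, 1 ≤ N → Real.log N ≤ (x : ℝ) ^ (1 / (2 * (R : ℝ))) → ∀ M : Finset ℤ,
        (∀ n ∈ M, n ≠ 0 ∧ n.natAbs ≤ N) → MI M → M.card ≤ m₁ →
        Real.log x * ((T.filter (fun y => C₀ < (M.filter (fun n => BadAt H n y)).card)).card : ℝ) ≤
          T.card := by
  obtain ⟨K₀, B, δ, hδ, hδ24, hruns⟩ := runsS m
  obtain ⟨R, hR⟩ : ∃ R : ℕ, 6 / δ ≤ R := exists_nat_ge _
  have hRδ : 6 ≤ R * δ := by rwa [div_le_iff₀ hδ] at hR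
  have hR1 : 1 ≤ R := by
    rcases Nat.eq_zero_or_pos R with h | h
    · rw [h] at hRδ
      norm_num at hRδ
    · exact h
  have hR1r : (1 : ℝ) ≤ R := by exact_mod_cast hR1
  refine ⟨B, K₀ * (R * R), R, hR1, fun Q hQ0 hQ4 a ha2 haQ => ?_⟩
  obtain ⟨H, hH⟩ := hruns Q hQ0 hQ4 a ha2 haQ
  refine ⟨H, fun m₁ => ?_⟩
  -- the constants
  obtain ⟨C₁, hC₁⟩ : ∃ C₁ : ℝ, C₁ = R * (((m₁ : ℝ) + 1) ^ R * 5 ^ R * (4 * R)) := ⟨_, rfl⟩
  have hC₁0 : 0 ≤ C₁ := by rw [hC₁]; positivity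
  have hev := Pool.Agent.N430.LK.ev_log (H * (4 * C₁ + 2 * m₁)) (1 / (2 * (R : ℝ))) (by positivity)
    (B + 1)
  have hev2 : ∀ᶠ x : ℕ in atTop, (3 : ℝ) ≤ (x : ℝ) ^ (δ / 2) :=
    ((tendsto_rpow_atTop (by positivity)).comp tendsto_natCast_atTop_atTop).eventually_ge_atTop _
  filter_upwards [hH, hev, hev2, eventually_ge_atTop 4] with x hx1 hx2 hx3 hx4
  obtain ⟨T, hT1, hT2⟩ := hx1
  have hx0 : (0 : ℝ) < x := by exact_mod_cast (by omega : 0 < x)
  have hxone : (1 : ℝ) ≤ x := by exact_mod_cast (by omega : 1 ≤ x)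
  have hx4r : (4 : ℝ) ≤ x := by exact_mod_cast hx4
  have hlx : 0 < Real.log x := Real.log_pos (by linarith)
  refine ⟨T, ?_, hT1, ?_, ?_⟩
  · intro y hy
    obtain ⟨g1, g2, -⟩ := hT2 y hy
    rw [mem_Ioc]
    omega
  · intro y hy
    obtain ⟨-, -, g3, -, g5⟩ := hT2 y hy
    exact ⟨g3, fun p hp hpp => (g5 p hp hpp).1⟩
  intro N hN hlN M hM0 hMI hMc
  -- the sifting limit
  obtain ⟨u, hu⟩ : ∃ u : ℝ, u = (x : ℝ) ^ (δ / 2) := ⟨_, rfl⟩
  rw [← hu] at hx3
  have huu : (x : ℝ) ^ δ = u ^ 2 := by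
    rw [hu, ← Real.rpow_natCast, ← Real.rpow_mul hx0.le]
    congr 1
    push_cast
    ring
  obtain ⟨z, hz⟩ : ∃ z : ℕ, z + 1 = ⌈(x : ℝ) ^ δ⌉₊ := by
    have : 1 ≤ ⌈(x : ℝ) ^ δ⌉₊ := Nat.ceil_pos.2 (by positivity)
    exact ⟨⌈(x : ℝ) ^ δ⌉₊ - 1, by omega⟩
  have hz1 : (z : ℝ) < (x : ℝ) ^ δ := by
    have h1 := Nat.ceil_lt_add_one (show 0 ≤ (x : ℝ) ^ δ by positivity)
    rw [← hz] at h1
    push_cast at h1
    linarith
  have hz2 : (x : ℝ) ^ δ ≤ z + 1 := by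
    have h1 := Nat.le_ceil ((x : ℝ) ^ δ)
    rw [← hz] at h1
    push_cast at h1
    exact h1
  have huz : u ≤ z := by
    rw [huu] at hz2
    nlinarith
  have hz3 : 2 ≤ z := by
    have : (2 : ℝ) ≤ z := by linarith
    exact_mod_cast this
  have hlu : Real.log u = δ / 2 * Real.log x := by
    rw [hu, Real.log_rpow hx0]
  have hlz : δ / 2 * Real.log x ≤ Real.log z := by
    rw [← hlu]
    exact Real.log_le_log (by linarith) huz
  obtain ⟨X, hX⟩ : ∃ X : ℕ, X = 2 * x := ⟨_, rfl⟩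
  have hXr : (X : ℝ) = 2 * x := by rw [hX]; push_cast; ring
  have hX2x : (X : ℝ) ^ 2 ≤ (x : ℝ) ^ 3 := by
    rw [hXr]
    nlinarith [mul_nonneg hx0.le hx0.le]
  have hXR : X ^ 2 ≤ z ^ R := by
    have h1 : (x : ℝ) ^ 3 ≤ u ^ R := by
      rw [hu, ← Real.rpow_natCast ((x : ℝ) ^ (δ / 2)) R, ← Real.rpow_mul hx0.le,
        ← Real.rpow_natCast]
      apply Real.rpow_le_rpow_of_exponent_le hxone
      push_cast
      linarith
    have h2 : u ^ R ≤ (z : ℝ) ^ R := pow_le_pow_left₀ (by linarith) huz R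
    have h3 : (X : ℝ) ^ 2 ≤ (z : ℝ) ^ R := hX2x.trans (h1.trans h2)
    exact_mod_cast h3
  have hlX : Real.log X ≤ 3 / 2 * Real.log x := by
    have h1 := Real.log_le_log (by rw [hXr]; positivity) hX2x
    rw [Real.log_pow, Real.log_pow] at h1
    push_cast at h1
    linarith
  have hSR : 2 * Real.log X ≤ R * Real.log z := by
    have h1 : (R : ℝ) * (δ / 2 * Real.log x) ≤ R * Real.log z :=
      mul_le_mul_of_nonneg_left hlz (by positivity)
    have h2 : 3 * Real.log x ≤ R * (δ / 2 * Real.log x) := by nlinarith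
    linarith
  -- the exceptional primes
  obtain ⟨EE, hEE⟩ : ∃ EE : Finset ℕ, EE = (Icc 2 R).biUnion (fun r => Exc X r M) := ⟨_, rfl⟩
  obtain ⟨DD, hDD⟩ : ∃ DD : Finset ℕ, DD = M.biUnion (fun n => n.natAbs.primeFactors) := ⟨_, rfl⟩
  have hgood : ∀ y ∈ T, (∀ p ∈ Ioc y (y + H), p.Prime → p ∉ EE ∧ p ∉ DD) →
      (M.filter (fun n => BadAt H n y)).card ≤ K₀ * (R * R) := by
    intro y hy hgo
    obtain ⟨g1, g2, g3, g4, g5⟩ := hT2 y hy
    have hsub : M.filter (fun n => BadAt H n y) ⊆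
        ((Ioc y (y + H)).filter (fun p => p.Prime)).biUnion (fun p => M.filter (fun n : ℤ =>
          (p : ℤ) ∣ n ∨ ∃ l : ℕ, l.Prime ∧ 3 ≤ l ∧ l ∣ p - 1 ∧
            (n : ZMod p) ^ ((p - 1) / l) = 1)) := by
      intro n hn
      rw [mem_filter] at hn
      obtain ⟨hnM, p, hp, hpp, h⟩ := hn
      rw [mem_biUnion]
      exact ⟨p, mem_filter.2 ⟨hp, hpp⟩, mem_filter.2 ⟨hnM, h⟩⟩
    have hone : ∀ p ∈ (Ioc y (y + H)).filter (fun p => p.Prime), (M.filter (fun n : ℤ =>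
          (p : ℤ) ∣ n ∨ ∃ l : ℕ, l.Prime ∧ 3 ≤ l ∧ l ∣ p - 1 ∧
            (n : ZMod p) ^ ((p - 1) / l) = 1)).card ≤ R * R := by
      intro p hp
      rw [mem_filter] at hp
      obtain ⟨h1, h2⟩ := hgo p hp.1 hp.2
      have hpI := mem_Ioc.1 hp.1
      have hpT : p ∈ TT X z := by
        unfold TT
        rw [mem_filter, mem_Icc]
        refine ⟨⟨hp.2.one_le, by omega⟩, hp.2, fun q hq hqp => ?_⟩
        rw [mem_OP] at hq
        have h3 := (g5 p hp.1 hp.2).2 q hq.1 (by omega) (by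
          have h4 : ((p - 1 : ℕ) : ℤ) = (p : ℤ) - 1 := by
            have := hp.2.one_le
            push_cast [this]
            ring
          rw [← h4]
          exact_mod_cast hqp)
        have h4 : (q : ℝ) ≤ z := by exact_mod_cast hq.2.2
        linarith
      have h5 := one_prime M X z R p (by omega) hz3 hXR hpT (by
        intro n hn h
        apply h2
        rw [hDD, mem_biUnion]
        exact ⟨n, hn, Pool.Agent.N430.LK.mem_pf (hM0 n hn).1 hp.2 h⟩) (by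
        intro r hr h
        apply h1
        rw [hEE, mem_biUnion]
        exact ⟨r, hr, h⟩) R (by positivity) hSR
      exact_mod_cast h5
    refine (card_le_card hsub).trans (card_biUnion_le.trans ?_)
    refine (sum_le_sum hone).trans ?_
    rw [sum_const, smul_eq_mul]
    exact Nat.mul_le_mul_right _ g4
  -- the strings with an exceptional prime
  have hsubB : T.filter (fun y => K₀ * (R * R) < (M.filter (fun n => BadAt H n y)).card) ⊆
      (EE ∪ DD).biUnion (fun p => Ico (p - H) p) := by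
    intro y hy
    rw [mem_filter] at hy
    by_contra hcon
    have h1 := hgood y hy.1 (by
      intro p hp hpp
      rw [mem_Ioc] at hp
      constructor
      · intro h
        apply hcon
        rw [mem_biUnion]
        exact ⟨p, mem_union_left _ h, mem_Ico.2 ⟨by omega, by omega⟩⟩
      · intro h
        apply hcon
        rw [mem_biUnion]
        exact ⟨p, mem_union_right _ h, mem_Ico.2 ⟨by omega, by omega⟩⟩)
    omega
  have hcB : ((T.filter (fun y => K₀ * (R * R) < (M.filter (fun n => BadAt H n y)).card)).card : ℝ) ≤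
      H * ((EE.card : ℝ) + DD.card) := by
    have h1 : (T.filter (fun y => K₀ * (R * R) < (M.filter (fun n => BadAt H n y)).card)).card ≤
        (EE.card + DD.card) * H := by
      refine (card_le_card hsubB).trans (card_biUnion_le.trans ?_)
      refine (sum_le_card_nsmul _ _ H (fun p _ => ?_)).trans ?_
      · rw [Nat.card_Ico]
        omega
      · rw [smul_eq_mul]
        exact Nat.mul_le_mul_right _ (card_union_le _ _)
    have h2 : ((T.filter (fun y => K₀ * (R * R) < (M.filter (fun n => BadAt H n y)).card)).card : ℝ) ≤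
        ((EE.card + DD.card) * H : ℕ) := by exact_mod_cast h1
    refine h2.trans (le_of_eq ?_)
    push_cast
    ring
  have hlN0 : 0 ≤ Real.log N := Real.log_natCast_nonneg N
  obtain ⟨q, hq⟩ : ∃ q : ℝ, q = (x : ℝ) ^ (1 / (2 * (R : ℝ))) := ⟨_, rfl⟩
  rw [← hq] at hlN hx2
  have hq1 : 1 ≤ q := by rw [hq]; exact Real.one_le_rpow hxone (by positivity)
  obtain ⟨w, hw⟩ : ∃ w : ℝ, w = (x : ℝ) ^ (1 - 1 / (R : ℝ)) := ⟨_, rfl⟩
  have hw1 : 1 ≤ w := by
    rw [hw]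
    apply Real.one_le_rpow hxone
    have : 1 / (R : ℝ) ≤ 1 := by
      rw [div_le_one (by linarith)]
      exact hR1r
    linarith
  have hwq : w * q * q = x := by
    rw [hw, hq, mul_assoc, ← Real.rpow_add hx0, ← Real.rpow_add hx0]
    have : 1 - 1 / (R : ℝ) + (1 / (2 * (R : ℝ)) + 1 / (2 * (R : ℝ))) = 1 := by
      field_simp
      ring
    rw [this, Real.rpow_one]
  have hXw : (X : ℝ) ^ (1 - 1 / (R : ℝ)) ≤ 2 * w := by
    rw [hXr, Real.mul_rpow (by norm_num) hx0.le, hw]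
    apply mul_le_mul_of_nonneg_right _ (by positivity)
    calc (2 : ℝ) ^ (1 - 1 / (R : ℝ)) ≤ 2 ^ (1 : ℝ) := by
          apply Real.rpow_le_rpow_of_exponent_le (by norm_num)
          have : 0 ≤ 1 / (R : ℝ) := by positivity
          linarith
      _ = 2 := Real.rpow_one 2
  have hEEc : (EE.card : ℝ) ≤ 4 * C₁ * (w * q) := by
    have h1 : (EE.card : ℝ) ≤ ∑ r ∈ Icc 2 R, ((Exc X r M).card : ℝ) := by
      rw [hEE]
      exact_mod_cast card_biUnion_le
    have h2 := Pool.Agent.N430.LK.exc_sum R m₁ X N (by omega) hN M (fun n hn => (hM0 n hn).1) hMI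
      (fun n hn => (hM0 n hn).2) hMc
    have h3 : (R : ℝ) * (((m₁ : ℝ) + 1) ^ R * 5 ^ R * (4 * R) * (Real.log N + 1) *
        (X : ℝ) ^ (1 - 1 / (R : ℝ))) = C₁ * ((Real.log N + 1) * (X : ℝ) ^ (1 - 1 / (R : ℝ))) := by
      rw [hC₁]
      ring
    rw [h3] at h2
    have h4 : (Real.log N + 1) * (X : ℝ) ^ (1 - 1 / (R : ℝ)) ≤ (2 * q) * (2 * w) :=
      mul_le_mul (by linarith) hXw (by positivity) (by linarith)
    have h5 := mul_le_mul_of_nonneg_left h4 hC₁0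
    calc (EE.card : ℝ) ≤ _ := h1.trans h2
      _ ≤ _ := h5
      _ = _ := by ring
  have hDDc : (DD.card : ℝ) ≤ 2 * m₁ * (w * q) := by
    have h1 : (DD.card : ℝ) ≤ ∑ n ∈ M, ((n.natAbs.primeFactors).card : ℝ) := by
      rw [hDD]
      exact_mod_cast card_biUnion_le
    have h3 : ∑ n ∈ M, (n.natAbs.primeFactors.card : ℝ) ≤ m₁ * (2 * Real.log N) := by
      calc ∑ n ∈ M, (n.natAbs.primeFactors.card : ℝ) ≤ ∑ _n ∈ M, 2 * Real.log N := by
            apply Finset.sum_le_sum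
            intro n hn
            exact Pool.Agent.N430.PS.card_pf n.natAbs N (Int.natAbs_pos.2 (hM0 n hn).1) (hM0 n hn).2
        _ = (M.card : ℝ) * (2 * Real.log N) := by rw [sum_const, nsmul_eq_mul]
        _ ≤ _ := by
            apply mul_le_mul_of_nonneg_right _ (by positivity)
            exact_mod_cast hMc
    refine h1.trans (h3.trans ?_)
    have h4 : Real.log N ≤ w * q := by nlinarith
    have h5 := mul_le_mul_of_nonneg_left h4 (show (0 : ℝ) ≤ 2 * m₁ by positivity)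
    linarith
  -- conclusion
  have hfin : H * ((EE.card : ℝ) + DD.card) ≤ H * (4 * C₁ + 2 * m₁) * (w * q) := by
    have h1 : (EE.card : ℝ) + DD.card ≤ (4 * C₁ + 2 * m₁) * (w * q) := by linarith
    have h2 := mul_le_mul_of_nonneg_left h1 (show (0 : ℝ) ≤ H by positivity)
    linarith
  have h1 : Real.log x ^ B * (Real.log x * (H * (4 * C₁ + 2 * m₁) * (w * q))) ≤ x := by
    have h2 : Real.log x ^ B * (Real.log x * (H * (4 * C₁ + 2 * m₁) * (w * q))) =
        (H * (4 * C₁ + 2 * m₁) * Real.log x ^ (B + 1)) * (w * q) := by ring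
    rw [h2]
    have h3 := mul_le_mul_of_nonneg_right hx2 (show 0 ≤ w * q by positivity)
    refine h3.trans (le_of_eq ?_)
    rw [← hwq]
    ring
  have h2 : Real.log x ^ B * (Real.log x * ((T.filter (fun y => K₀ * (R * R) <
      (M.filter (fun n => BadAt H n y)).card)).card : ℝ)) ≤ Real.log x ^ B * T.card := by
    refine le_trans ?_ (h1.trans hT1)
    apply mul_le_mul_of_nonneg_left _ (by positivity)
    exact mul_le_mul_of_nonneg_left (hcB.trans hfin) hlx.le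
  exact le_of_mul_le_mul_left h2 (by positivity)

end Pool.Agent.U163.SA
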