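import Pool.Agent.U163.SA.Core
import Pool.Agent.R498.MP.PU8

/-!
# Strings of primes `p` in a residue class for which `(p - 1) / 2` has no small prime factors

The number of the primes, the power of the logarithm and the exponent `δ` do not depend on the residue
class.
-/

set_option autoImplicit false
set_option linter.unusedSectionVars false

namespace Pool.Agent.U163.SA

open Finset Filter Polynomial
open Pool.Agent.R498.MP
open Pool.Agent.R498.MT
open Pool.Agent.Y677.RSZ (rt Sys rhoT per_mod ev_log V eng_all)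
open Pool.Agent.TH423.SH (PS PIj)
open Pool.Agent.W23.DC
open Pool.Agent.Y882
open Pool.Agent.Y882.PX
open Pool.Agent.Y882.KW

/-- the product of the odd primes up to `z` -/
def oddP (z : ℕ) : ℕ := ∏ p ∈ (Finset.range (z + 1)).filter (fun p => p.Prime ∧ p ≠ 2), p

theorem dvd_oddP {p z : ℕ} (hp : p.Prime) (h2 : p ≠ 2) (hz : p ≤ z) : p ∣ oddP z :=
  Finset.dvd_prod_of_mem (fun p => p) (by
    rw [mem_filter, mem_range]
    exact ⟨by omega, hp, h2⟩)

theorem oddP_odd (z : ℕ) : ¬ 2 ∣ oddP z := by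
  intro h
  obtain ⟨p, hp, h2⟩ := (Nat.prime_two.prime.dvd_finsetProd_iff _).1 h
  rw [mem_filter] at hp
  exact hp.2.2 ((Nat.prime_dvd_prime_iff_eq Nat.prime_two hp.2.1).1 h2).symm

/-- the system -/
def shF (P : ℕ) (n : ℤ) : ℤ := n * (2 * (n - 1) + P)

theorem sys_shF {P : ℕ} (hP : ¬ 2 ∣ P) : SysW 2 (shF P) := by
  have hev : ∀ n : ℤ, (X * (C 2 * X + C ((P : ℤ) - 2)) : ℤ[X]).eval n = shF P n := by
    intro n
    unfold shF
    rw [eval_mul, eval_add, eval_mul, eval_X, eval_C, eval_C]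
    ring
  have h := sysW_poly (X * (C 2 * X + C ((P : ℤ) - 2)) : ℤ[X]) 2 ?_ ?_
  · have e : (fun n => (X * (C 2 * X + C ((P : ℤ) - 2)) : ℤ[X]).eval n) = shF P := by
      funext n
      exact hev n
    rwa [e] at h
  · refine natDegree_mul_le.trans ?_
    have h1 : (C (2 : ℤ) * X + C ((P : ℤ) - 2) : ℤ[X]).natDegree ≤ 1 := by
      exact natDegree_linear_le
    rw [natDegree_X]
    omega
  · intro p hp
    have hpZ := Nat.prime_iff_prime_int.1 hp
    by_cases hpP : p ∣ P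
    · have hp2 : p ≠ 2 := fun h => hP (h ▸ hpP)
      refine ⟨2, fun h => ?_⟩
      rw [hev] at h
      unfold shF at h
      have h2 : ¬ (p : ℤ) ∣ 2 := by
        intro h3
        have h4 : p ∣ 2 := by exact_mod_cast h3
        exact hp2 ((Nat.prime_dvd_prime_iff_eq hp Nat.prime_two).1 h4)
      rcases hpZ.dvd_or_dvd h with h3 | h3
      · exact h2 h3
      · have h4 : (p : ℤ) ∣ (P : ℤ) := Int.natCast_dvd_natCast.2 hpP
        have h5 := dvd_sub h3 h4
        have e : (2 : ℤ) * (2 - 1) + P - P = 2 := by ring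
        rw [e] at h5
        exact h2 h5
    · refine ⟨1, fun h => ?_⟩
      rw [hev] at h
      unfold shF at h
      have e : (1 : ℤ) * (2 * (1 - 1) + P) = P := by ring
      rw [e] at h
      exact hpP (Int.natCast_dvd_natCast.1 h)

/-- the residue class -/
theorem exb (W Q a : ℕ) (hW0 : 0 < W) (hQW : Q ∣ W)
    (haQ : ∀ p : ℕ, p.Prime → p ∣ Q → p ≠ 2 → ¬ p ∣ a ∧ ¬ (p : ℤ) ∣ (a : ℤ) - 1) :
    ∃ b < W, b ≡ a [MOD Q] ∧ ∀ p : ℕ, p.Prime → p ∣ W → p ≠ 2 → ¬ p ∣ b ∧ ¬ (p : ℤ) ∣ (b : ℤ) - 1 := by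
  obtain ⟨R, hR⟩ : ∃ R : ℕ, R = ∏ p ∈ W.primeFactors.filter (fun p => ¬ p ∣ Q), p := ⟨_, rfl⟩
  have hRp : ∀ p : ℕ, p.Prime → p ∣ W → ¬ p ∣ Q → p ∣ R := by
    intro p hp hpW hpQ
    rw [hR]
    exact Finset.dvd_prod_of_mem (fun p => p) (by
      rw [mem_filter, Nat.mem_primeFactors]
      exact ⟨⟨hp, hpW, hW0.ne'⟩, hpQ⟩)
  have hRW : R ∣ W := by
    rw [hR]
    apply Finset.prod_primes_dvd
    · intro p hp
      exact (Nat.prime_of_mem_primeFactors (mem_filter.1 hp).1).prime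
    · intro p hp
      exact Nat.dvd_of_mem_primeFactors (mem_filter.1 hp).1
  have hcop : Nat.Coprime Q R := by
    rw [hR]
    refine Nat.Coprime.prod_right fun p hp => ?_
    rw [mem_filter] at hp
    exact ((Nat.Prime.coprime_iff_not_dvd (Nat.prime_of_mem_primeFactors hp.1)).2 hp.2).symm
  have hQR : Q * R ∣ W := hcop.mul_dvd_of_dvd_of_dvd hQW hRW
  have hQR0 : 0 < Q * R := Nat.pos_of_dvd_of_pos hQR hW0
  obtain ⟨c, hc1, hc2⟩ := Nat.chineseRemainder hcop a 2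
  have hcc : c % (Q * R) ≡ c [MOD Q * R] := Nat.mod_modEq c (Q * R)
  refine ⟨c % (Q * R), (Nat.mod_lt _ hQR0).trans_le (Nat.le_of_dvd hW0 hQR), ?_, ?_⟩
  · exact (hcc.of_mul_right R).trans hc1
  · intro p hp hpW hp2
    by_cases hpQ : p ∣ Q
    · have h1 : c % (Q * R) ≡ a [MOD p] := ((hcc.of_mul_right R).trans hc1).of_dvd hpQ
      obtain ⟨g1, g2⟩ := haQ p hp hpQ hp2
      refine ⟨fun h => g1 ((h1.dvd_iff dvd_rfl).1 h), fun h => g2 ?_⟩
      have h2 : ((c % (Q * R) : ℕ) : ℤ) ≡ (a : ℤ) [ZMOD p] := (Int.natCast_modEq_iff).2 h1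
      have h3 := h2.symm.dvd
      have h4 := dvd_sub h h3
      have e : ((c % (Q * R) : ℕ) : ℤ) - 1 - (((c % (Q * R) : ℕ) : ℤ) - a) = (a : ℤ) - 1 := by ring
      rwa [e] at h4
    · have h1 : c % (Q * R) ≡ 2 [MOD p] :=
        ((hcc.of_mul_left Q).trans hc2).of_dvd (hRp p hp hpW hpQ)
      refine ⟨fun h => ?_, fun h => ?_⟩
      · have h2 := (h1.dvd_iff dvd_rfl).1 h
        exact hp2 ((Nat.prime_dvd_prime_iff_eq hp Nat.prime_two).1 h2)
      · have h2 : ((c % (Q * R) : ℕ) : ℤ) ≡ ((2 : ℕ) : ℤ) [ZMOD p] := (Int.natCast_modEq_iff).2 h1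
        have h3 := h2.symm.dvd
        have h4 := dvd_sub h h3
        have e : ((c % (Q * R) : ℕ) : ℤ) - 1 - (((c % (Q * R) : ℕ) : ℤ) - ((2 : ℕ) : ℤ)) = 1 := by
          push_cast
          ring
        rw [e] at h4
        have h5 := Int.le_of_dvd one_pos h4
        have h6 := hp.one_lt
        omega

open Classical in
/-- **Strings of primes `p` in a residue class for which `(p - 1) / 2` has no small prime factors.** -/
theorem runsS (m : ℕ) : ∃ (K₀ B : ℕ) (δ : ℝ), 0 < δ ∧ δ ≤ 1 / 24 ∧ ∀ Q : ℕ, 0 < Q → 4 ∣ Q →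
    ∀ a : ℕ, ¬ 2 ∣ a → (∀ p : ℕ, p.Prime → p ∣ Q → p ≠ 2 → ¬ p ∣ a ∧ ¬ (p : ℤ) ∣ (a : ℤ) - 1) →
    ∃ L₀ : ℕ, ∀ᶠ N : ℕ in atTop, ∃ T : Finset ℕ, (N : ℝ) ≤ Real.log N ^ B * T.card ∧
      ∀ x ∈ T, N < x ∧ x + L₀ ≤ 2 * N ∧
        m < ((Ioc x (x + L₀)).filter (fun p => p.Prime)).card ∧
        ((Ioc x (x + L₀)).filter (fun p => p.Prime)).card ≤ K₀ ∧
        ∀ p ∈ Ioc x (x + L₀), p.Prime → p ≡ a [MOD Q] ∧
          ∀ l : ℕ, l.Prime → l ≠ 2 → (l : ℤ) ∣ (p : ℤ) - 1 → (N : ℝ) ^ δ ≤ l := by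
  obtain ⟨k, -, hcoreA⟩ := coreA m
  obtain ⟨ε₁, c, hε, hε24, hc, hcoreQ⟩ := hcoreA 2 (by norm_num)
  refine ⟨2 ^ k, 2 * (2 * 2 ^ k) + 2, ε₁, hε, hε24, fun Q hQ0 hQ4 a ha2 haQ => ?_⟩
  obtain ⟨W, hW0, hQW, hWp, hcore⟩ := hcoreQ Q hQ0
  have h2W : 2 ∣ W := (Dvd.dvd.trans (by norm_num) hQ4).trans hQW
  have hW2 : 2 ≤ W := Nat.le_of_dvd hW0 h2W
  obtain ⟨b₁, hb₁W, hb₁Q, hb₁⟩ := exb W Q a hW0 hQW haQ
  obtain ⟨b, hbd⟩ : ∃ b, b = W + b₁ := ⟨_, rfl⟩
  have hb₁2 : ¬ 2 ∣ b₁ := fun h => ha2 ((hb₁Q.of_dvd (Dvd.dvd.trans (by norm_num) hQ4)).dvd_iff dvd_rfl |>.1 h)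
  have hb2 : ¬ 2 ∣ b := by
    rw [hbd]
    exact fun h => hb₁2 ((Nat.dvd_add_right h2W).1 h)
  have hbW : b < 2 * W := by omega
  -- the slots
  obtain ⟨t, htd⟩ : ∃ t : Fin (2 ^ k) → ℕ, t = fun i => i.val + 1 := ⟨_, rfl⟩
  have ht : Function.Injective t := by
    intro i j hij
    rw [htd] at hij
    have : i.val + 1 = j.val + 1 := hij
    exact Fin.ext (by omega)
  obtain ⟨L₀, hL₀⟩ : ∃ L₀ : ℕ, L₀ = W * 2 ^ k := ⟨_, rfl⟩
  have htL : ∀ i, 1 ≤ W * t i ∧ W * t i ≤ L₀ := by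
    intro i
    have hti : t i = i.val + 1 := by rw [htd]
    rw [hti, hL₀]
    have h1 := i.isLt
    exact ⟨Nat.mul_pos hW0 (Nat.succ_pos _), Nat.mul_le_mul_left _ (by omega)⟩
  refine ⟨L₀, ?_⟩
  obtain ⟨E', hE'⟩ : ∃ E' : Finset ℕ, E' = (Icc 1 L₀).filter (fun y => 2 ∣ y ∧ ∀ i, W * t i ≠ y) :=
    ⟨_, rfl⟩
  obtain ⟨Y1, hY1⟩ := (hcore t ht b).1
  have hc2 : ∀ᶠ N : ℕ in atTop, ∀ y ∈ E', ∀ F : ℤ → ℤ, SysW 2 F →
        ∀ (d : Fin (2 ^ k) → ℕ) (z : ℕ), (∀ j, d j ≠ 0 ∧ d j ≤ N ^ 1 ∧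
          ∀ p ∈ PS W z, (p : ℤ) ∣ F (((W * t j + b : ℕ) : ℤ) - ((b + y : ℕ) : ℤ)) → p ∣ d j) →
        ∀ M L : ℕ, Win W N M L → (z : ℝ) < (N : ℝ) ^ ε₁ →
        0 < Vp F W b z t → 1 ≤ Real.log N ^ (2 * (2 * 2 ^ k) + 1) * Vp F W b z t →
        ∀ s : Finset ℕ,
        (∀ K ∈ s, K ∈ Ioc M (M + L) ∧ (W * K + (b + y)).Prime ∧
          ∀ p ∈ PS W z, ∀ i, ¬ (p : ℤ) ∣ F ((W * (K + t i) + b : ℕ) : ℤ)) →
        (s.card : ℝ) ≤ c / (2 * (E'.card + 1)) * (L * Vp F W b z t) := by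
    rw [Finset.eventually_all]
    intro y _
    obtain ⟨Y₀, hY₀⟩ := (hcore t ht b).2 (b + y) (c / (2 * (E'.card + 1))) (by positivity) 1
    filter_upwards [eventually_ge_atTop Y₀] with N hN F h1 d z h2
    exact hY₀ F h1 N hN d z h2
  have hlog : ∀ᶠ N : ℕ in atTop, 16 * W * 2 ^ 2 ^ k / c ≤ Real.log (N : ℝ) :=
    (Real.tendsto_log_atTop.comp tendsto_natCast_atTop_atTop).eventually_ge_atTop _
  have hWN : ∀ᶠ N : ℕ in atTop, (W : ℝ) + 1 ≤ (N : ℝ) ^ ε₁ :=
    ((tendsto_rpow_atTop hε).comp tendsto_natCast_atTop_atTop).eventually_ge_atTop _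
  filter_upwards [eventually_ge_atTop Y1, hc2, hlog, numsE W 0 (2 * W) 0 0 0 0 L₀ hW2 hW0, hWN,
    eventually_ge_atTop ((L₀ + 1) * (L₀ + 1))] with N hNY1 hN2 hN3 hN4 hN5 hN6
  obtain ⟨-, n2, n3, -, n5, -, n7, n8, n9, -⟩ := hN4
  obtain ⟨M, hM⟩ : ∃ M : ℕ, M = (N + 0) / W := ⟨_, rfl⟩
  obtain ⟨L, hL⟩ : ∃ L : ℕ, L = N / (2 * W) := ⟨_, rfl⟩
  rw [← hM, ← hL] at n5
  rw [← hL] at n7 n8 n9
  have hNr : (16 : ℝ) ≤ N := by exact_mod_cast n2
  have hN0 : (0 : ℝ) < N := by linarith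
  have hN1r : (1 : ℝ) ≤ N := by linarith
  obtain ⟨z, hz⟩ : ∃ z : ℕ, z + 1 = ⌈(N : ℝ) ^ ε₁⌉₊ := by
    have : 1 ≤ ⌈(N : ℝ) ^ ε₁⌉₊ := Nat.ceil_pos.2 (by positivity)
    exact ⟨⌈(N : ℝ) ^ ε₁⌉₊ - 1, by omega⟩
  have hz1 : (z : ℝ) < (N : ℝ) ^ ε₁ := by
    have h1 := Nat.ceil_lt_add_one (show 0 ≤ (N : ℝ) ^ ε₁ by positivity)
    rw [← hz] at h1
    push_cast at h1
    linarith
  have hz2 : (N : ℝ) ^ ε₁ ≤ z + 1 := by
    have h1 := Nat.le_ceil ((N : ℝ) ^ ε₁)
    rw [← hz] at h1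
    push_cast at h1
    exact h1
  have hWz : W ≤ z := by
    have h1 : (W : ℝ) + 1 ≤ z + 1 := hN5.trans hz2
    have h2 : (W : ℝ) ≤ z := by linarith
    exact_mod_cast h2
  -- the system
  obtain ⟨F, hF⟩ : ∃ F : ℤ → ℤ, F = shF (oddP z) := ⟨_, rfl⟩
  have hFs : SysW 2 F := by
    rw [hF]
    exact sys_shF (oddP_odd z)
  have hFid : ∀ p : ℕ, p.Prime → ∀ n : ℤ, (p : ℤ) ∣ n → (p : ℤ) ∣ F n := by
    intro p _ n h
    rw [hF]
    exact h.mul_right _
  have hPz : ∀ p : ℕ, p.Prime → p ≠ 2 → p ≤ z → (p : ℤ) ∣ ((oddP z : ℕ) : ℤ) := fun p hp h2 hpz =>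
    Int.natCast_dvd_natCast.2 (dvd_oddP hp h2 hpz)
  have h2p : ∀ p : ℕ, p.Prime → p ≠ 2 → ¬ (p : ℤ) ∣ 2 := by
    intro p hp h2 h3
    have h4 : p ∣ 2 := by exact_mod_cast h3
    exact h2 ((Nat.prime_dvd_prime_iff_eq hp Nat.prime_two).1 h4)
  have hFd : ∀ p : ℕ, p.Prime → p ≠ 2 → p ≤ z → ∀ n : ℤ, (p : ℤ) ∣ F n → (p : ℤ) ∣ n * (n - 1) := by
    intro p hp h2 hpz n h
    have hpZ := Nat.prime_iff_prime_int.1 hp
    rw [hF] at h
    unfold shF at h
    rcases hpZ.dvd_or_dvd h with h3 | h3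
    · exact h3.mul_right _
    · have h4 := dvd_sub h3 (hPz p hp h2 hpz)
      rw [add_sub_cancel_right] at h4
      rcases hpZ.dvd_or_dvd h4 with h5 | h5
      · exact absurd h5 (h2p p hp h2)
      · exact h5.mul_left _
  have hbF : ∀ p : ℕ, p.Prime → p ∣ W → ¬ (p : ℤ) ∣ F b := by
    intro p hp hpW h
    by_cases h2 : p = 2
    · subst h2
      rw [hF] at h
      unfold shF at h
      rcases Int.prime_two.dvd_or_dvd h with h3 | h3
      · exact hb2 (by exact_mod_cast h3)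
      · have h4 := (dvd_add_right (Dvd.intro ((b : ℤ) - 1) rfl : (2 : ℤ) ∣ 2 * ((b : ℤ) - 1))).1 h3
        exact oddP_odd z (by exact_mod_cast h4)
    · have h3 := hFd p hp h2 ((Nat.le_of_dvd hW0 hpW).trans hWz) b h
      obtain ⟨g1, g2⟩ := hb₁ p hp hpW h2
      have hpZ := Nat.prime_iff_prime_int.1 hp
      have hWZ : (p : ℤ) ∣ (W : ℤ) := Int.natCast_dvd_natCast.2 hpW
      rw [hbd] at h3
      push_cast at h3
      rcases hpZ.dvd_or_dvd h3 with h4 | h4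
      · exact g1 (by exact_mod_cast (dvd_add_right hWZ).1 h4)
      · apply g2
        have e : (W : ℤ) + b₁ - 1 = W + (b₁ - 1) := by ring
        rw [e] at h4
        exact (dvd_add_right hWZ).1 h4
  obtain ⟨hgd, hV0, hV1⟩ := hY1 F hFs hFid hbF N hNY1 M L z n5 hz1 hz2
  have hWL1 : 1 ≤ W * L := by
    have h1 : (1 : ℝ) ≤ ((W * L : ℕ) : ℝ) := le_trans (Real.one_le_rpow hN1r (by norm_num)) n7
    exact_mod_cast h1
  have hL1 : 1 ≤ L := by
    rcases Nat.eq_zero_or_pos L with h | h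
    · rw [h, mul_zero] at hWL1
      omega
    · exact h
  have hLr : (0 : ℝ) < L := by exact_mod_cast hL1
  have hW0r : (0 : ℝ) < W := by exact_mod_cast hW0
  obtain ⟨Hs, T, hHs, hA1, hA2⟩ := manyP F W b M L z N k m
    (2 * (2 * 2 ^ k) + 1) ε₁ c (Vp F W b z t) t E' (fun y => b + y) hc hV0
    hLr hz1 hgd (fun y hy s hs => hN2 y hy F hFs
      (fun j => (((W * t j : ℕ) : ℤ) - y).natAbs * ((((W * t j : ℕ) : ℤ) - y - 1)).natAbs) z (by
      intro j
      rw [hE', mem_filter, mem_Icc] at hy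
      obtain ⟨⟨y1, y2⟩, y3, y4⟩ := hy
      obtain ⟨g1, g2⟩ := htL j
      have hne : ((W * t j : ℕ) : ℤ) - y ≠ 0 := by
        intro h
        apply y4 j
        have : ((W * t j : ℕ) : ℤ) = y := by linarith
        exact_mod_cast this
      have h2t : (2 : ℤ) ∣ ((W * t j : ℕ) : ℤ) := by
        have : 2 ∣ W * t j := h2W.mul_right _
        exact_mod_cast this
      have h2y : (2 : ℤ) ∣ (y : ℤ) := by exact_mod_cast y3
      have hne1 : ((W * t j : ℕ) : ℤ) - y - 1 ≠ 0 := by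
        intro h
        have h3 := dvd_sub h2t h2y
        have h4 : ((W * t j : ℕ) : ℤ) - y = 1 := by linarith
        rw [h4] at h3
        norm_num at h3
      refine ⟨mul_ne_zero (Int.natAbs_ne_zero.2 hne) (Int.natAbs_ne_zero.2 hne1), ?_, ?_⟩
      · rw [pow_one]
        have q1 : (((W * t j : ℕ) : ℤ) - y).natAbs ≤ L₀ + 1 := by omega
        have q2 : (((W * t j : ℕ) : ℤ) - y - 1).natAbs ≤ L₀ + 1 := by omega
        exact (Nat.mul_le_mul q1 q2).trans hN6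
      · intro p hp hpd
        unfold PS at hp
        rw [mem_filter, mem_Icc] at hp
        have hp2 : p ≠ 2 := fun h => hp.2.2 (h ▸ h2W)
        have e : ((W * t j + b : ℕ) : ℤ) - ((b + y : ℕ) : ℤ) = ((W * t j : ℕ) : ℤ) - y := by
          push_cast
          ring
        rw [e] at hpd
        have h3 := hFd p hp.2.1 hp2 hp.1.2 _ hpd
        rw [← Int.natAbs_mul]
        exact Int.natCast_dvd.1 h3) M L n5 hz1 hV0 hV1 s hs)
  have hWM : W * M ≤ N := by
    rw [hM]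
    exact Nat.mul_div_le _ _
  have hWM1 : N < W * (M + 1) := by
    rw [hM]
    exact Nat.lt_mul_div_succ (N + 0) hW0
  have hWM2 : W * (M + 1) = W * M + W := by ring
  have hWML : W * (M + L) = W * M + W * L := by ring
  refine ⟨T.image (fun K => W * K + b), ?_, ?_⟩
  · -- the count
    rw [card_image_of_injective _ (fun K K' hKK => by
      have h1 : W * K + b = W * K' + b := hKK
      have h2 : W * K = W * K' := by omega
      exact Nat.eq_of_mul_eq_mul_left hW0 h2)]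
    obtain ⟨-, -, -, w4, -⟩ := n5
    have w4r : (N : ℝ) ≤ 8 * (W * L) := by exact_mod_cast w4
    obtain ⟨X, hX⟩ : ∃ X : ℝ, X = Real.log N ^ (2 * (2 * 2 ^ k) + 1) := ⟨_, rfl⟩
    have hlN : 0 < Real.log N := Real.log_pos (by linarith)
    have hX0 : 0 < X := by rw [hX]; positivity
    rw [← hX] at hV1
    have h1 : (L : ℝ) ≤ X * (L * Vp F W b z t) := by nlinarith
    have h2 : c / (2 * 2 ^ 2 ^ k) * L ≤ X * T.card := by
      have h3 := mul_le_mul_of_nonneg_left hA1 hX0.le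
      have h4 := mul_le_mul_of_nonneg_left h1 (show 0 ≤ c / (2 * 2 ^ 2 ^ k) by positivity)
      linarith
    have h5 : c * N ≤ 16 * W * 2 ^ 2 ^ k * (X * T.card) := by
      have h6 : c * L ≤ 2 * 2 ^ 2 ^ k * (X * T.card) := by
        rw [div_mul_eq_mul_div, div_le_iff₀ (by positivity)] at h2
        linarith
      have h7 := mul_le_mul_of_nonneg_left h6 (show (0 : ℝ) ≤ 8 * W by positivity)
      have h8 := mul_le_mul_of_nonneg_left w4r hc.le
      linarith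
    have h9 : 16 * W * 2 ^ 2 ^ k ≤ Real.log N * c := by
      rwa [div_le_iff₀ hc] at hN3
    have h10 : c * N ≤ c * (Real.log N * (X * T.card)) := by
      have := mul_le_mul_of_nonneg_right h9 (show 0 ≤ X * T.card by positivity)
      linarith
    have h11 := le_of_mul_le_mul_left h10 hc
    refine h11.trans (le_of_eq ?_)
    rw [hX, pow_succ (Real.log (N : ℝ)) (2 * (2 * 2 ^ k) + 1)]
    ring
  · intro x hx
    rw [mem_image] at hx
    obtain ⟨K, hK, hKx⟩ := hx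
    obtain ⟨hK1, hK2, hK3, hK4⟩ := hA2 K hK
    rw [mem_Ioc] at hK1
    have h2 : W * (M + 1) ≤ W * K := Nat.mul_le_mul_left _ (by omega)
    have h3 : W * K ≤ W * (M + L) := Nat.mul_le_mul_left _ hK1.2
    have e : ∀ i, x + W * t i = W * (K + t i) + b := by
      intro i
      have h1 : W * (K + t i) = W * K + W * t i := by ring
      omega
    have hx2 : ¬ 2 ∣ x := by
      rw [← hKx]
      exact fun h => hb2 ((Nat.dvd_add_right (h2W.mul_right K)).1 h)
    have hset : (Ioc x (x + L₀)).filter (fun p => p.Prime) = Hs.image (fun i => x + W * t i) := by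
      ext p
      rw [mem_filter, mem_Ioc, mem_image]
      constructor
      · rintro ⟨⟨p1, p2⟩, p3⟩
        obtain ⟨y, rfl⟩ := Nat.exists_eq_add_of_le p1.le
        have hy2 : 2 ∣ y := by
          by_contra h
          have h4 : 2 ∣ x + y := by omega
          have h5 := (Nat.prime_dvd_prime_iff_eq Nat.prime_two p3).1 h4
          omega
        by_cases hyt : ∀ i, W * t i ≠ y
        · exfalso
          have hyE : y ∈ E' := by
            rw [hE', mem_filter, mem_Icc]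
            exact ⟨⟨by omega, by omega⟩, hy2, hyt⟩
          apply hK4 y hyE
          have : W * K + (b + y) = x + y := by omega
          rw [this]
          exact p3
        · push Not at hyt
          obtain ⟨i, rfl⟩ := hyt
          refine ⟨i, (hK3 i).1 ?_, rfl⟩
          rw [← e i]
          exact p3
      · rintro ⟨i, hi, rfl⟩
        obtain ⟨g1, g2⟩ := htL i
        refine ⟨⟨by omega, by omega⟩, ?_⟩
        rw [e i]
        exact (hK3 i).2 hi
    have hinj : Function.Injective (fun i => x + W * t i) := by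
      intro i j hij
      have h1 : x + W * t i = x + W * t j := hij
      have h2 : W * t i = W * t j := by omega
      exact ht (Nat.eq_of_mul_eq_mul_left hW0 h2)
    have hcard : ((Ioc x (x + L₀)).filter (fun p => p.Prime)).card = Hs.card := by
      rw [hset, card_image_of_injective _ hinj]
    refine ⟨by omega, by omega, by omega, ?_, ?_⟩
    · rw [hcard]
      exact (card_le_univ Hs).trans (by rw [Fintype.card_fin])
    · intro p hp hpp
      have hpm : p ∈ (Ioc x (x + L₀)).filter (fun p => p.Prime) := mem_filter.2 ⟨hp, hpp⟩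
      rw [hset, mem_image] at hpm
      obtain ⟨i, hi, hip⟩ := hpm
      constructor
      · rw [← hip]
        show x + W * t i ≡ a [MOD Q]
        rw [e i]
        have h1 : W * (K + t i) ≡ 0 [MOD Q] := (Nat.modEq_zero_iff_dvd).2 (hQW.mul_right _)
        have h2 : W ≡ 0 [MOD Q] := (Nat.modEq_zero_iff_dvd).2 hQW
        have h3 := (h1.add (h2.add hb₁Q))
        rw [hbd]
        simpa using h3
      · intro l hl hl2 hlp
        by_contra hcon
        push Not at hcon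
        have h1 := hK2 l hl hcon i
        apply h1
        have hlz : l ≤ z := by
          have : (l : ℝ) < z + 1 := hcon.trans_le hz2
          have h4 : l < z + 1 := by exact_mod_cast this
          omega
        rw [← e i]
        have hip' : x + W * t i = p := hip
        rw [hip', hF]
        unfold shF
        exact ((hlp.mul_left 2).add (hPz l hl hl2 hlz)).mul_left _

end Pool.Agent.U163.SA
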