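import Pool.Agent.U163.SA.Exc2
import Pool.Agent.U163.SL.ClassT
import Pool.Agent.U163.SA.Rank

/-!
# One exceptional set for all finite sets of integers

The idea to use ultrafilters here (one exceptional set for all finite sets) is due to helper289.
-/

set_option autoImplicit false

namespace Pool.Agent.U163.SA

open Finset Filter
open Pool.Agent.Y855 (MI)

/-- the filter of the sets of pairs `(x, y)` which contain almost all `y ∈ T x` for all large `x` -/
def almost (T : ℕ → Finset ℕ) : Filter (ℕ × ℕ) where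
  sets := {A | ∃ S : ℕ → Finset ℕ, (∀ x, ∀ y ∈ T x, (x, y) ∉ A → y ∈ S x) ∧
    ∃ c : ℝ, ∀ᶠ x : ℕ in atTop, Real.log x * ((S x).card : ℝ) ≤ c * (T x).card}
  univ_sets := ⟨fun _ => ∅, fun _ _ _ h => absurd (Set.mem_univ _) h, 0, by simp⟩
  sets_of_superset := by
    rintro A A' ⟨S, hS, hc⟩ hAA'
    exact ⟨S, fun x y hy h => hS x y hy (fun h' => h (hAA' h')), hc⟩
  inter_sets := by
    classical
    rintro A A' ⟨S, hS, c, hc⟩ ⟨S', hS', c', hc'⟩
    refine ⟨fun x => S x ∪ S' x, fun x y hy h => ?_, c + c', ?_⟩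
    · rw [mem_union]
      by_cases h1 : (x, y) ∈ A
      · right
        exact hS' x y hy (fun h2 => h ⟨h1, h2⟩)
      · left
        exact hS x y hy h1
    · filter_upwards [hc, hc'] with x h1 h2
      have h3 : ((S x ∪ S' x).card : ℝ) ≤ (S x).card + (S' x).card := by
        exact_mod_cast card_union_le _ _
      have h4 := mul_le_mul_of_nonneg_left h3 (Real.log_natCast_nonneg x)
      nlinarith

theorem mem_almost (T : ℕ → Finset ℕ) (A : Set (ℕ × ℕ)) : A ∈ almost T ↔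
    ∃ S : ℕ → Finset ℕ, (∀ x, ∀ y ∈ T x, (x, y) ∉ A → y ∈ S x) ∧
    ∃ c : ℝ, ∀ᶠ x : ℕ in atTop, Real.log x * ((S x).card : ℝ) ≤ c * (T x).card := Iff.rfl

theorem almost_neBot (T : ℕ → Finset ℕ) (hT : ∀ᶠ x : ℕ in atTop, 0 < (T x).card) :
    (almost T).NeBot := by
  refine ⟨fun hbot => ?_⟩
  have h0 := Filter.empty_mem_iff_bot.2 hbot
  rw [mem_almost] at h0
  obtain ⟨S, hS, c, hc⟩ := h0
  have hlog : ∀ᶠ x : ℕ in atTop, c + 1 ≤ Real.log (x : ℝ) :=
    (Real.tendsto_log_atTop.comp tendsto_natCast_atTop_atTop).eventually_ge_atTop _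
  obtain ⟨x, h1, h2, h3⟩ := (hT.and (hc.and hlog)).exists
  have h4 : (T x).card ≤ (S x).card := card_le_card fun y hy => hS x y hy (by simp)
  have h5 : (0 : ℝ) < (T x).card := by exact_mod_cast h1
  have h6 : ((T x).card : ℝ) ≤ (S x).card := by exact_mod_cast h4
  have h7 : (c + 1) * ((T x).card : ℝ) ≤ Real.log x * (S x).card :=
    mul_le_mul h3 h6 h5.le (Real.log_natCast_nonneg x)
  nlinarith

open Classical in
/-- **One sequence of strings.** -/
theorem one_level (T : ℕ → Finset ℕ) (hT : ∀ᶠ x : ℕ in atTop, 0 < (T x).card) (H C₀ : ℕ)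
    (hbad : ∀ M : Finset ℤ, (∀ n ∈ M, n ≠ 0) → MI M → ∀ᶠ x : ℕ in atTop,
      Real.log x * (((T x).filter (fun y => C₀ < (M.filter (fun n => BadAt H n y)).card)).card : ℝ) ≤
          (T x).card) :
    ∃ E : Set ℤ, (∀ M : Finset ℤ, (∀ n ∈ M, n ≠ 0 ∧ n ∈ E) → MI M → M.card ≤ C₀) ∧
      ∀ F : Finset ℤ, (∀ n ∈ F, n ∉ E) → ∃ᶠ x : ℕ in atTop,
        ((T x).card : ℝ) ≤
          Real.log x * (((T x).filter (fun y => ∀ n ∈ F, ¬ BadAt H n y)).card : ℝ) := by
  have hne := almost_neBot T hT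
  obtain ⟨U, hU⟩ : ∃ U : Ultrafilter (ℕ × ℕ), (U : Filter (ℕ × ℕ)) ≤ almost T :=
    ⟨Ultrafilter.of (almost T), Ultrafilter.of_le _⟩
  refine ⟨{n | ∀ᶠ w in (U : Filter (ℕ × ℕ)), BadAt H n w.2}, ?_, ?_⟩
  · intro M hM hMI
    have h1 : ∀ᶠ w in (U : Filter (ℕ × ℕ)), ∀ n ∈ M, BadAt H n w.2 :=
      (Finset.eventually_all M).2 fun n hn => (hM n hn).2
    have h2 : ∀ᶠ w in (U : Filter (ℕ × ℕ)), (M.filter (fun n => BadAt H n w.2)).card ≤ C₀ := by
      apply hU
      rw [mem_almost]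
      refine ⟨fun x => (T x).filter (fun y => C₀ < (M.filter (fun n => BadAt H n y)).card),
        fun x y hy h => ?_, 1, ?_⟩
      · rw [mem_filter]
        exact ⟨hy, not_le.1 h⟩
      · filter_upwards [hbad M (fun n hn => (hM n hn).1) hMI] with x hx
        rw [one_mul]
        exact hx
    obtain ⟨w, h3, h4⟩ := (h1.and h2).exists
    rwa [filter_true_of_mem h3] at h4
  · intro F hF
    have h1 : ∀ᶠ w in (U : Filter (ℕ × ℕ)), ∀ n ∈ F, ¬ BadAt H n w.2 :=
      (Finset.eventually_all F).2 fun n hn => Ultrafilter.eventually_not.2 (hF n hn)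
    by_contra hcon
    rw [not_frequently] at hcon
    have h2 : ∀ᶠ w in (U : Filter (ℕ × ℕ)), ¬ ∀ n ∈ F, ¬ BadAt H n w.2 := by
      apply hU
      rw [mem_almost]
      refine ⟨fun x => (T x).filter (fun y => ∀ n ∈ F, ¬ BadAt H n y), fun x y hy h => ?_, 1, ?_⟩
      · rw [mem_filter]
        exact ⟨hy, not_not.1 h⟩
      · filter_upwards [hcon] with x hx
        rw [one_mul]
        exact (not_le.1 hx).le
    obtain ⟨w, h3, h4⟩ := (h1.and h2).exists
    exact h4 h3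

end Pool.Agent.U163.SA
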